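import Pool.Agent.H175G.Stmts2

/-! Task T14 (CROSS-P), helper793. -/

set_option linter.unusedVariables false

namespace Pool.Agent.H175G.CPx

open Finset Classical
open Pool.Agent.H175G

variable {V : Type} {G : SimpleGraph V}

/-- anticomplete to the four vertices -/
abbrev A4 (G : SimpleGraph V) (v0 v1 v2 v3 w : V) : Prop :=
  ¬ G.Adj v0 w ∧ ¬ G.Adj v1 w ∧ ¬ G.Adj v2 w ∧ ¬ G.Adj v3 w

/-- type of the vertices of `P` -/
abbrev TP (G : SimpleGraph V) (v0 v1 v2 v3 x : V) : Prop :=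
  G.Adj v0 x ∧ G.Adj v2 x ∧ ¬ G.Adj v3 x

/-- type of the vertices of `Q` -/
abbrev TQ (G : SimpleGraph V) (v0 v1 v2 v3 y : V) : Prop :=
  G.Adj v1 y ∧ G.Adj v3 y ∧ ¬ G.Adj v2 y

section
variable {v0 v1 v2 v3 : V}

theorem l0 (h5 : NoC5 G) (hc : C22 G v0 v1 v2 v3) {x y : V} (hx : TP G v0 v1 v2 v3 x)
    (hy : TQ G v0 v1 v2 v3 y) (hxy : ¬ G.Adj x y) : ¬ G.Adj v1 x := by
  intro h
  gp

theorem l0' (h5 : NoC5 G) (hc : C22 G v0 v1 v2 v3) {x y : V} (hx : TP G v0 v1 v2 v3 x)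
    (hy : TQ G v0 v1 v2 v3 y) (hxy : ¬ G.Adj x y) : ¬ G.Adj v0 y := by
  intro h
  gp

theorem x0 (hp : NoP23 G) (h5 : NoC5 G) (hc : C22 G v0 v1 v2 v3) {x y w : V}
    (hx : TP G v0 v1 v2 v3 x) (hy : TQ G v0 v1 v2 v3 y) (hxy : ¬ G.Adj x y)
    (hw : A4 G v0 v1 v2 v3 w) : ¬ G.Adj x w ∧ ¬ G.Adj y w := by
  have h1 := l0 h5 hc hx hy hxy
  have h2 := l0' h5 hc hx hy hxy
  constructor
  · intro h
    gp 1
  · intro h
    gp 1

/-- a vertex of `Q` misses at most one vertex of `P` -/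
theorem l2 (hp : NoP23 G) (h5 : NoC5 G) (hc : C22 G v0 v1 v2 v3) {x x' y : V}
    (hx : TP G v0 v1 v2 v3 x) (hx' : TP G v0 v1 v2 v3 x') (hy : TQ G v0 v1 v2 v3 y)
    (hxy : ¬ G.Adj x y) (hxy' : ¬ G.Adj x' y) : x = x' := by
  by_contra hne
  have h1 := l0 h5 hc hx hy hxy
  have h2 := l0' h5 hc hx hy hxy
  have h3 := l0 h5 hc hx' hy hxy'
  gp 1

theorem l2' (hp : NoP23 G) (h5 : NoC5 G) (hc : C22 G v0 v1 v2 v3) {x y y' : V}
    (hx : TP G v0 v1 v2 v3 x) (hy : TQ G v0 v1 v2 v3 y) (hy' : TQ G v0 v1 v2 v3 y')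
    (hxy : ¬ G.Adj x y) (hxy' : ¬ G.Adj x y') : y = y' := by
  by_contra hne
  have h1 := l0 h5 hc hx hy hxy
  have h2 := l0' h5 hc hx hy hxy
  have h3 := l0' h5 hc hx hy' hxy'
  gp 1

theorem l3 (hg : NoGem G) (hp : NoP23 G) (h5 : NoC5 G) (hc : C22 G v0 v1 v2 v3) {x x' y y' : V}
    (hx : TP G v0 v1 v2 v3 x) (hx' : TP G v0 v1 v2 v3 x') (hy : TQ G v0 v1 v2 v3 y)
    (hy' : TQ G v0 v1 v2 v3 y') (hxy : ¬ G.Adj x y) (hxx : G.Adj x x') (hyy : G.Adj y y') :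
    ¬ G.Adj x' y' := by
  intro h
  have h1 : G.Adj x' y := by
    by_contra hn
    exact hxx.ne (l2 hp h5 hc hx hx' hy hxy hn)
  have h2 : G.Adj x y' := by
    by_contra hn
    exact hyy.ne (l2' hp h5 hc hx hy hy' hxy hn)
  gp

/-- traces on `P` are unions of components -/
theorem x1 (hg : NoGem G) (hp : NoP23 G) (h5 : NoC5 G) (hc : C22 G v0 v1 v2 v3) {x x' y w : V}
    (hx : TP G v0 v1 v2 v3 x) (hx' : TP G v0 v1 v2 v3 x') (hy : TQ G v0 v1 v2 v3 y)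
    (hw : A4 G v0 v1 v2 v3 w) (hyw : G.Adj y w) (hxx : G.Adj x x') (hxw : G.Adj x' w) :
    G.Adj x w := by
  by_contra h
  have h1 : G.Adj x y := by
    by_contra hn
    exact (x0 hp h5 hc hx hy hn hw).2 hyw
  have h2 : G.Adj x' y := by
    by_contra hn
    exact (x0 hp h5 hc hx' hy hn hw).2 hyw
  gp

theorem x1' (hg : NoGem G) (hp : NoP23 G) (h5 : NoC5 G) (hc : C22 G v0 v1 v2 v3) {x y y' w : V}
    (hx : TP G v0 v1 v2 v3 x) (hy : TQ G v0 v1 v2 v3 y) (hy' : TQ G v0 v1 v2 v3 y')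
    (hw : A4 G v0 v1 v2 v3 w) (hxw : G.Adj x w) (hyy : G.Adj y y') (hyw : G.Adj y' w) :
    G.Adj y w := by
  by_contra h
  have h1 : G.Adj x y := by
    by_contra hn
    exact (x0 hp h5 hc hx hy hn hw).1 hxw
  have h2 : G.Adj x y' := by
    by_contra hn
    exact (x0 hp h5 hc hx hy' hn hw).1 hxw
  gp

end

/-! ### coordinates -/

/-- inverse of `π` on `Ω.image π`, identity elsewhere -/
noncomputable def inv (Ω : Finset V) (π : V → V) (z : V) : V :=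
  if h : ∃ w ∈ Ω, π w = z then h.choose else z

section cfg
variable {v0 v1 v2 v3 : V} {P Q Ω : Finset V} {π : V → V}

theorem inv_pi (hc : CPCfg G v0 v1 v2 v3 P Q Ω π) {w : V} (hw : w ∈ Ω) : inv Ω π (π w) = w := by
  have h : ∃ w' ∈ Ω, π w' = π w := ⟨w, hw, rfl⟩
  unfold inv
  rw [dif_pos h]
  by_contra hne
  exact (hc.2.2.2.2.2.1 _ h.choose_spec.1 _ hw hne).2.2.2.2 h.choose_spec.2

theorem inv_of {z : V} (h : ∀ w ∈ Ω, π w ≠ z) : inv Ω π z = z := by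
  unfold inv
  rw [dif_neg]
  rintro ⟨w, hw, h'⟩
  exact h w hw h'

theorem inv_self (hc : CPCfg G v0 v1 v2 v3 P Q Ω π) {w : V} (hw : w ∈ Ω) : inv Ω π w = w := by
  by_cases h : ∃ w' ∈ Ω, π w' = w
  · obtain ⟨w', hw', h⟩ := h
    have hww : w' = w := by
      by_contra hne
      exact (hc.2.2.2.2.2.1 _ hw _ hw' (fun h => hne h.symm)).2.2.2.1 h.symm
    rw [hww] at h
    conv_lhs => rw [← h]
    exact inv_pi hc hw
  · push Not at h
    exact inv_of h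

theorem pi_inj (hc : CPCfg G v0 v1 v2 v3 P Q Ω π) {a b : V} (ha : a ∈ Ω) (hb : b ∈ Ω)
    (h : π a = π b) : a = b := by
  by_contra hne
  exact (hc.2.2.2.2.2.1 _ ha _ hb hne).2.2.2.2 h

theorem nPQ (hc : CPCfg G v0 v1 v2 v3 P Q Ω π) {x : V} (hx : x ∈ P) : x ∉ Q := fun h =>
  (hc.2.2.1 x h).2.2 (hc.2.1 x hx).2.1

theorem nOP (hc : CPCfg G v0 v1 v2 v3 P Q Ω π) {w : V} (hw : w ∈ Ω) : w ∉ P := fun h =>
  (hc.2.2.2.1 w hw).1 (hc.2.1 w h).1

theorem nOQ (hc : CPCfg G v0 v1 v2 v3 P Q Ω π) {w : V} (hw : w ∈ Ω) : w ∉ Q := fun h =>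
  (hc.2.2.2.1 w hw).2.1 (hc.2.2.1 w h).1

theorem nOP' (hc : CPCfg G v0 v1 v2 v3 P Q Ω π) {w : V} (hw : w ∈ Ω) : π w ∉ P := fun h =>
  (hc.2.2.2.2.1 w hw).1 (hc.2.1 _ h).1

theorem nOQ' (hc : CPCfg G v0 v1 v2 v3 P Q Ω π) {w : V} (hw : w ∈ Ω) : π w ∉ Q := fun h =>
  (hc.2.2.2.2.1 w hw).2.1 (hc.2.2.1 _ h).1

/-- a member of `Ω` of the form `π w` is single -/
theorem pi_mem (hc : CPCfg G v0 v1 v2 v3 P Q Ω π) {w : V} (hw : w ∈ Ω) (h : π w ∈ Ω) :
    π w = w := by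
  by_contra hne
  exact (hc.2.2.2.2.2.1 _ h _ hw hne).2.2.2.1 rfl

theorem inv_PQ (hc : CPCfg G v0 v1 v2 v3 P Q Ω π) {x : V} (hx : x ∈ P ∪ Q) :
    inv Ω π x = x := by
  apply inv_of
  rintro w hw rfl
  rcases Finset.mem_union.1 hx with h | h
  · exact nOP' hc hw h
  · exact nOQ' hc hw h

theorem inv_mem (hc : CPCfg G v0 v1 v2 v3 P Q Ω π) {y : V} (hy : y ∈ Ω ∪ Ω.image π) :
    inv Ω π y ∈ Ω := by
  rcases Finset.mem_union.1 hy with h | h
  · rw [inv_self hc h]; exact h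
  · obtain ⟨w, hw, rfl⟩ := Finset.mem_image.1 h
    rw [inv_pi hc hw]; exact hw

theorem inv_eq (hc : CPCfg G v0 v1 v2 v3 P Q Ω π) {y y' : V}
    (hy : y ∈ P ∪ Q ∪ Ω ∪ Ω.image π) (hy' : y' ∈ P ∪ Q ∪ Ω ∪ Ω.image π)
    (h : inv Ω π y = inv Ω π y') (hne : y ≠ y') : G.Adj y y' := by
  have hE := hc.2.2.2.2.2.2
  have key : ∀ y ∈ P ∪ Q ∪ Ω ∪ Ω.image π, (y ∈ P ∪ Q ∧ inv Ω π y = y ∧ y ∉ Ω) ∨
      (y ∈ Ω ∧ inv Ω π y = y) ∨ (∃ w ∈ Ω, y = π w ∧ inv Ω π y = w) := by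
    intro y hy
    rw [Finset.mem_union, Finset.mem_union] at hy
    rcases hy with (hy | hy) | hy
    · left
      refine ⟨hy, inv_PQ hc hy, fun h => ?_⟩
      rcases Finset.mem_union.1 hy with h' | h'
      · exact nOP hc h h'
      · exact nOQ hc h h'
    · exact Or.inr (Or.inl ⟨hy, inv_self hc hy⟩)
    · obtain ⟨w, hw, rfl⟩ := Finset.mem_image.1 hy
      exact Or.inr (Or.inr ⟨w, hw, rfl, inv_pi hc hw⟩)
  rcases key y hy with ⟨h1, h2, h3⟩ | ⟨h1, h2⟩ | ⟨w, hw, h1, h2⟩ <;>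
    rcases key y' hy' with ⟨k1, k2, k3⟩ | ⟨k1, k2⟩ | ⟨w', hw', k1, k2⟩
  · exact absurd (by rw [← h2, ← k2, h]) hne
  · exact absurd (by rw [← h2, ← k2, h]) hne
  · rw [h2, k2] at h
    exact absurd (h ▸ hw') h3
  · exact absurd (by rw [← h2, ← k2, h]) hne
  · exact absurd (by rw [← h2, ← k2, h]) hne
  · rw [h2, k2] at h
    subst h
    rcases hE y hw' with h | h
    · exact absurd (by rw [k1, h]) hne
    · rw [k1]; exact h.1
  · rw [h2, k2] at h
    exact absurd (h ▸ hw) k3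
  · rw [h2, k2] at h
    subst h
    rcases hE w hw with h | h
    · exact absurd (by rw [h1, h]) hne
    · rw [h1]; exact h.1.symm
  · rw [h2, k2] at h
    subst h
    exact absurd (by rw [h1, k1]) hne

/-- coordinates in different blocks are not adjacent -/
theorem inv_ne (hc : CPCfg G v0 v1 v2 v3 P Q Ω π) {y y' : V}
    (hy : y ∈ Ω ∪ Ω.image π) (hy' : y' ∈ Ω ∪ Ω.image π)
    (h : inv Ω π y ≠ inv Ω π y') : ¬ G.Adj y y' := by
  have hOO := hc.2.2.2.2.2.1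
  rcases Finset.mem_union.1 hy with h1 | h1 <;> rcases Finset.mem_union.1 hy' with h2 | h2
  · rw [inv_self hc h1, inv_self hc h2] at h
    exact (hOO _ h1 _ h2 h).1
  · obtain ⟨w, hw, rfl⟩ := Finset.mem_image.1 h2
    rw [inv_self hc h1, inv_pi hc hw] at h
    exact (hOO _ h1 _ hw h).2.2.1
  · obtain ⟨w, hw, rfl⟩ := Finset.mem_image.1 h1
    rw [inv_self hc h2, inv_pi hc hw] at h
    exact fun h' => (hOO _ h2 _ hw h.symm).2.2.1 h'.symm
  · obtain ⟨w, hw, rfl⟩ := Finset.mem_image.1 h1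
    obtain ⟨w', hw', rfl⟩ := Finset.mem_image.1 h2
    rw [inv_pi hc hw, inv_pi hc hw'] at h
    exact (hOO _ hw _ hw' h).2.1

theorem cfg_mono {P' Q' Ω' : Finset V} (hc : CPCfg G v0 v1 v2 v3 P Q Ω π) (hP : P' ⊆ P)
    (hQ : Q' ⊆ Q) (hO : Ω' ⊆ Ω) : CPCfg G v0 v1 v2 v3 P' Q' Ω' π := by
  obtain ⟨h1, h2, h3, h4, h5, h6, h7⟩ := hc
  refine ⟨h1, fun x hx => h2 x (hP hx), fun x hx => h3 x (hQ hx), fun x hx => h4 x (hO hx),
    fun x hx => h5 x (hO hx), fun x hx y hy => h6 x (hO hx) y (hO hy), fun x hx => ?_⟩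
  rcases h7 x (hO hx) with h | ⟨h, h', h''⟩
  · exact Or.inl h
  · exact Or.inr ⟨h, fun p hp => h' p (hP hp), fun q hq => h'' q (hQ hq)⟩

theorem cfg_swap (hc : CPCfg G v0 v1 v2 v3 P Q Ω π) :
    CPCfg G v1 v0 v3 v2 Q P (Ω.image π) (inv Ω π) := by
  have hi : ∀ w ∈ Ω, inv Ω π (π w) = w := fun w hw => inv_pi hc hw
  obtain ⟨h1, h2, h3, h4, h5, h6, h7⟩ := hc
  refine ⟨⟨h1.1.symm, h1.2.1.symm, h1.2.2.2.2.2, h1.2.2.2.2.1, h1.2.2.2.1, h1.2.2.1⟩, h3, h2,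
    ?_, ?_, ?_, ?_⟩
  · intro x hx
    obtain ⟨w, hw, rfl⟩ := Finset.mem_image.1 hx
    have := h5 w hw
    tauto
  · intro x hx
    obtain ⟨w, hw, rfl⟩ := Finset.mem_image.1 hx
    rw [hi w hw]
    have := h4 w hw
    tauto
  · intro x hx y hy hxy
    obtain ⟨a, ha, rfl⟩ := Finset.mem_image.1 hx
    obtain ⟨b, hb, rfl⟩ := Finset.mem_image.1 hy
    rw [hi a ha, hi b hb]
    have hab : a ≠ b := fun h => hxy (by rw [h])
    obtain ⟨k1, k2, k3, k4, k5⟩ := h6 a ha b hb hab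
    obtain ⟨m1, m2, m3, m4, m5⟩ := h6 b hb a ha hab.symm
    exact ⟨k2, k1, fun h => m3 h.symm, fun h => m4 h.symm, hab⟩
  · intro x hx
    obtain ⟨w, hw, rfl⟩ := Finset.mem_image.1 hx
    rw [hi w hw]
    rcases h7 w hw with h | ⟨h, h', h''⟩
    · exact Or.inl h.symm
    · exact Or.inr ⟨h.symm, h'', h'⟩

theorem swap_image (hc : CPCfg G v0 v1 v2 v3 P Q Ω π) : (Ω.image π).image (inv Ω π) = Ω := by
  ext z
  simp only [Finset.mem_image]
  constructor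
  · rintro ⟨x, ⟨w, hw, rfl⟩, rfl⟩
    rw [inv_pi hc hw]; exact hw
  · intro hz
    exact ⟨π z, ⟨z, hz, rfl⟩, inv_pi hc hz⟩

end cfg

/-! ### no crossing coordinates, no links -/

/-- labels -/
abbrev Lb : Type := Prop × Prop × Prop × Prop

theorem coreC (hA : AttachStmt) (hT : TwoStmt) (hZ : ZStmt) :
    ∃ K : ℕ, ∀ (V : Type) (G : SimpleGraph V), NoGem G → NoP23 G →
      ∀ (v0 v1 v2 v3 : V) (P Q Ω : Finset V) (π : V → V), CPCfg G v0 v1 v2 v3 P Q Ω π →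
      Comp G P Q → (∀ w ∈ Ω, nb G P w = ∅ ∨ nb G Q (π w) = ∅) →
      BD G K (P ∪ Q ∪ Ω ∪ Ω.image π) := by
  obtain ⟨BA, hA⟩ := hA
  obtain ⟨BT, hT⟩ := hT
  obtain ⟨KZ, hZ⟩ := hZ
  refine ⟨BA (BT KZ KZ (Fintype.card Lb)) 1 (Fintype.card Lb), ?_⟩
  intro V G hg hp v0 v1 v2 v3 P Q Ω π hc hPQ hno
  have hc' := hc
  obtain ⟨c22, hP, hQ, hO, hO', hOO, hE⟩ := hc'
  have hnPQ : ∀ x ∈ P, x ∉ Q := fun x hx => nPQ hc hx
  have hnOP : ∀ w ∈ Ω, w ∉ P := fun x hx => nOP hc hx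
  have hnOQ : ∀ w ∈ Ω, w ∉ Q := fun x hx => nOQ hc hx
  have hnOP' : ∀ w ∈ Ω, π w ∉ P := fun x hx => nOP' hc hx
  have hnOQ' : ∀ w ∈ Ω, π w ∉ Q := fun x hx => nOQ' hc hx
  obtain ⟨Ω1, hΩ1⟩ : ∃ S, S = Ω.filter (fun w => nb G Q (π w) = ∅) := ⟨_, rfl⟩
  obtain ⟨Ω2, hΩ2⟩ : ∃ S, S = Ω.filter (fun w => ¬ nb G Q (π w) = ∅) := ⟨_, rfl⟩
  have s1 : Ω1 ⊆ Ω := by rw [hΩ1]; exact Finset.filter_subset _ _
  have s2 : Ω2 ⊆ Ω := by rw [hΩ2]; exact Finset.filter_subset _ _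
  have s12 : ∀ w ∈ Ω1, w ∉ Ω2 := by
    intro w h1 h2
    rw [hΩ1, Finset.mem_filter] at h1
    rw [hΩ2, Finset.mem_filter] at h2
    exact h2.2 h1.2
  have e1 : ∀ w ∈ Ω1, ∀ y ∈ Q, ¬ G.Adj (π w) y := by
    intro w hw y hy hadj
    rw [hΩ1, Finset.mem_filter] at hw
    have : y ∈ nb G Q (π w) := mem_nb.2 ⟨hy, hadj⟩
    rw [hw.2] at this
    simp at this
  have e2 : ∀ w ∈ Ω2, ∀ x ∈ P, ¬ G.Adj w x := by
    intro w hw x hx hadj
    rw [hΩ2, Finset.mem_filter] at hw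
    have h3 := (hno w hw.1).resolve_right hw.2
    have : x ∈ nb G P w := mem_nb.2 ⟨hx, hadj⟩
    rw [h3] at this
    simp at this
  obtain ⟨E1, hE1⟩ : ∃ S, S = Ω1.filter (fun w => π w ≠ w) := ⟨_, rfl⟩
  obtain ⟨E2, hE2⟩ : ∃ S, S = (Ω2.filter (fun w => π w ≠ w)).image π := ⟨_, rfl⟩
  obtain ⟨W1, hW1⟩ : ∃ S, S = (Ω1.filter (fun w => π w ≠ w)).image π := ⟨_, rfl⟩
  obtain ⟨W2, hW2⟩ : ∃ S, S = Ω2.filter (fun w => π w ≠ w) := ⟨_, rfl⟩
  -- the core
  have hcore : BD G (BT KZ KZ (Fintype.card Lb)) ((P ∪ Ω1) ∪ (Q ∪ Ω2.image π)) := by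
    refine hT V G Lb KZ KZ (P ∪ Ω1) (Q ∪ Ω2.image π)
      (fun z => (z ∈ P, z ∈ Q, z ∈ E1, z ∈ E2))
      (fun l l' => (l.1 ∧ (l'.2.1 ∨ l'.2.2.2)) ∨ (l.2.2.1 ∧ l'.2.1)) ?_ ?_ ?_ ?_
    · rw [Finset.disjoint_left]
      intro x hx hx'
      rcases Finset.mem_union.1 hx with hx | hx <;> rcases Finset.mem_union.1 hx' with hx' | hx'
      · exact hnPQ x hx hx'
      · obtain ⟨w, hw, rfl⟩ := Finset.mem_image.1 hx'
        exact hnOP' w (s2 hw) hx
      · exact hnOQ x (s1 hx) hx'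
      · obtain ⟨w, hw, rfl⟩ := Finset.mem_image.1 hx'
        have := pi_mem hc (s2 hw) (s1 hx)
        rw [this] at hx
        exact s12 w hx hw
    · apply hZ V G hg hp v0 P Ω1
      refine ⟨fun m hm => (hP m hm).1, fun n hn => (hO n (s1 hn)).1, ?_, ?_⟩
      · intro x hx y hy
        by_cases h : x = y
        · rw [h]; exact G.loopless.irrefl y
        · exact (hOO x (s1 hx) y (s1 hy) h).1
      · intro h
        exact (hO v0 (s1 h)).2.1 c22.1.symm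
    · apply hZ V G hg hp v1 Q (Ω2.image π)
      refine ⟨fun m hm => (hQ m hm).1, ?_, ?_, ?_⟩
      · intro n hn
        obtain ⟨w, hw, rfl⟩ := Finset.mem_image.1 hn
        exact (hO' w (s2 hw)).2.1
      · intro x hx y hy
        obtain ⟨a, ha, rfl⟩ := Finset.mem_image.1 hx
        obtain ⟨b, hb, rfl⟩ := Finset.mem_image.1 hy
        by_cases h : a = b
        · rw [h]; exact G.loopless.irrefl _
        · exact (hOO a (s2 ha) b (s2 hb) h).2.1
      · intro h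
        obtain ⟨w, hw, h⟩ := Finset.mem_image.1 h
        exact (hO' w (s2 hw)).1 (h ▸ c22.1)
    · intro x hx y hy
      show G.Adj x y ↔ (x ∈ P ∧ (y ∈ Q ∨ y ∈ E2)) ∨ (x ∈ E1 ∧ y ∈ Q)
      rcases Finset.mem_union.1 hx with hx | hx <;> rcases Finset.mem_union.1 hy with hy | hy
      · exact ⟨fun _ => Or.inl ⟨hx, Or.inl hy⟩, fun _ => hPQ x hx y hy⟩
      · obtain ⟨w, hw, rfl⟩ := Finset.mem_image.1 hy
        have hwO := s2 hw
        by_cases hs : π w = w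
        · have hl : ¬ G.Adj x (π w) := by
            rw [hs]; exact fun h => e2 w hw x hx h.symm
          have hr : π w ∉ E2 := by
            rw [hE2]
            intro h
            obtain ⟨w', hw', h'⟩ := Finset.mem_image.1 h
            rw [Finset.mem_filter] at hw'
            have := pi_inj hc (s2 hw'.1) hwO h'
            rw [this] at hw'
            exact hw'.2 hs
          have := hnOQ' w hwO
          tauto
        · have hl : G.Adj x (π w) := by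
            rcases hE w hwO with h | h
            · exact absurd h hs
            · exact (h.2.1 x hx).symm
          have hr : π w ∈ E2 := by
            rw [hE2]
            exact Finset.mem_image.2 ⟨w, Finset.mem_filter.2 ⟨hw, hs⟩, rfl⟩
          tauto
      · have hxO := s1 hx
        by_cases hs : π x = x
        · have hl : ¬ G.Adj x y := by
            have := e1 x hx y hy
            rwa [hs] at this
          have hr : x ∉ E1 := by
            rw [hE1, Finset.mem_filter]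
            exact fun h => h.2 hs
          have := hnOP x hxO
          tauto
        · have hl : G.Adj x y := by
            rcases hE x hxO with h | h
            · exact absurd h hs
            · exact h.2.2 y hy
          have hr : x ∈ E1 := by
            rw [hE1, Finset.mem_filter]
            exact ⟨hx, hs⟩
          tauto
      · obtain ⟨w, hw, rfl⟩ := Finset.mem_image.1 hy
        have hne : x ≠ w := by
          rintro rfl
          exact s12 x hx hw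
        have hl := (hOO x (s1 hx) w (s2 hw) hne).2.2.1
        have h1 := hnOP x (s1 hx)
        have h2 := hnOQ' w (s2 hw)
        tauto
  -- attach the other ends of the edge coordinates
  have hmemV : ∀ z ∈ ((P ∪ Ω1) ∪ (Q ∪ Ω2.image π)) ∪ (W1 ∪ W2), z ∈ P ∪ Q ∪ Ω ∪ Ω.image π := by
    intro z hz
    simp only [Finset.mem_union] at hz ⊢
    rcases hz with ((h | h) | (h | h)) | (h | h)
    · exact Or.inl (Or.inl (Or.inl h))
    · exact Or.inl (Or.inr (s1 h))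
    · exact Or.inl (Or.inl (Or.inr h))
    · exact Or.inr (Finset.image_subset_image s2 h)
    · rw [hW1] at h
      exact Or.inr (Finset.image_subset_image ((Finset.filter_subset _ _).trans s1) h)
    · rw [hW2, Finset.mem_filter] at h
      exact Or.inl (Or.inr (s2 h.1))
  have hatt := hA V G Lb V (BT KZ KZ (Fintype.card Lb)) 1 ((P ∪ Ω1) ∪ (Q ∪ Ω2.image π)) (W1 ∪ W2)
    (fun z => (z ∈ P, z ∈ Q, z ∈ W1, z ∈ W2))
    (fun l l' => (l.2.2.1 ∧ l'.1) ∨ (l.2.2.2 ∧ l'.2.1)) (inv Ω π) hcore ?_ ?_ ?_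
  · refine hatt.sub ?_
    intro z hz
    simp only [Finset.mem_union] at hz ⊢
    rcases hz with ((h | h) | h) | h
    · exact Or.inl (Or.inl (Or.inl h))
    · exact Or.inl (Or.inr (Or.inl h))
    · by_cases h1 : nb G Q (π z) = ∅
      · left; left; right
        rw [hΩ1, Finset.mem_filter]
        exact ⟨h, h1⟩
      · have hz2 : z ∈ Ω2 := by rw [hΩ2, Finset.mem_filter]; exact ⟨h, h1⟩
        by_cases h2 : π z = z
        · left; right; right
          exact Finset.mem_image.2 ⟨z, hz2, h2⟩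
        · right; right
          rw [hW2, Finset.mem_filter]
          exact ⟨hz2, h2⟩
    · obtain ⟨w, hw, rfl⟩ := Finset.mem_image.1 h
      by_cases h1 : nb G Q (π w) = ∅
      · have hw1 : w ∈ Ω1 := by rw [hΩ1, Finset.mem_filter]; exact ⟨hw, h1⟩
        by_cases h2 : π w = w
        · left; left; right
          rw [h2]; exact hw1
        · right; left
          rw [hW1]
          exact Finset.mem_image.2 ⟨w, Finset.mem_filter.2 ⟨hw1, h2⟩, rfl⟩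
      · left; right; right
        exact Finset.mem_image.2 ⟨w, by rw [hΩ2, Finset.mem_filter]; exact ⟨hw, h1⟩, rfl⟩
  · intro x hx y hy hxy
    by_contra hne
    -- `x`, `y` would be the two ends of a coordinate
    have key : ∀ z ∈ (P ∪ Ω1) ∪ (Q ∪ Ω2.image π), (z ∈ P ∪ Q ∧ inv Ω π z = z) ∨
        (z ∈ Ω1 ∧ inv Ω π z = z) ∨ (∃ w ∈ Ω2, z = π w ∧ inv Ω π z = w) := by
      intro z hz
      simp only [Finset.mem_union] at hz
      rcases hz with (h | h) | (h | h)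
      · exact Or.inl ⟨Finset.mem_union_left _ h, inv_PQ hc (Finset.mem_union_left _ h)⟩
      · exact Or.inr (Or.inl ⟨h, inv_self hc (s1 h)⟩)
      · exact Or.inl ⟨Finset.mem_union_right _ h, inv_PQ hc (Finset.mem_union_right _ h)⟩
      · obtain ⟨w, hw, rfl⟩ := Finset.mem_image.1 h
        exact Or.inr (Or.inr ⟨w, hw, rfl, inv_pi hc (s2 hw)⟩)
    have hPQO : ∀ z ∈ P ∪ Q, z ∉ Ω := by
      intro z hz h
      rcases Finset.mem_union.1 hz with h' | h'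
      · exact hnOP z h h'
      · exact hnOQ z h h'
    rcases key x hx with ⟨h1, h2⟩ | ⟨h1, h2⟩ | ⟨w, hw, h1, h2⟩ <;>
      rcases key y hy with ⟨k1, k2⟩ | ⟨k1, k2⟩ | ⟨w', hw', k1, k2⟩ <;> rw [h2, k2] at hxy
    · exact hne hxy
    · exact hne hxy
    · exact hPQO x h1 (hxy ▸ s2 hw')
    · exact hne hxy
    · exact hne hxy
    · exact s12 x h1 (hxy ▸ hw')
    · exact hPQO y k1 (hxy ▸ s2 hw)
    · exact s12 y k1 (hxy ▸ hw)
    · exact hne (by rw [h1, k1, hxy])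
  · intro x hx
    apply BD.clq
    intro y hy z hz hyz
    rw [Finset.mem_filter] at hy hz
    exact inv_eq hc (hmemV y hy.1) (hmemV z hz.1) (hy.2.trans hz.2.symm) hyz
  · intro x hx y hy hxy
    show G.Adj x y ↔ (x ∈ W1 ∧ y ∈ P) ∨ (x ∈ W2 ∧ y ∈ Q)
    have hycase : y ∈ P ∨ y ∈ Q ∨ (y ∈ Ω ∪ Ω.image π ∧ y ∉ P ∧ y ∉ Q) := by
      have h := hmemV y hy
      rw [Finset.mem_union, Finset.mem_union, Finset.mem_union] at h
      rcases h with ((h | h) | h) | h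
      · exact Or.inl h
      · exact Or.inr (Or.inl h)
      · exact Or.inr (Or.inr ⟨Finset.mem_union_left _ h, hnOP y h, hnOQ y h⟩)
      · obtain ⟨w, hw, rfl⟩ := Finset.mem_image.1 h
        exact Or.inr (Or.inr ⟨Finset.mem_union_right _ h, hnOP' w hw, hnOQ' w hw⟩)
    rcases Finset.mem_union.1 hx with hx1 | hx1
    · have hx1' := hx1
      rw [hW1] at hx1'
      obtain ⟨w, hw, hwx⟩ := Finset.mem_image.1 hx1'
      rw [Finset.mem_filter] at hw
      have hwO := s1 hw.1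
      have hx2 : x ∉ W2 := by
        rw [hW2, Finset.mem_filter]
        rintro ⟨h, -⟩
        rw [← hwx] at h
        exact hw.2 (pi_mem hc hwO (s2 h))
      have hedge := (hE w hwO).resolve_left hw.2
      rcases hycase with h | h | ⟨h, h', h''⟩
      · have hl : G.Adj x y := by rw [← hwx]; exact hedge.2.1 y h
        tauto
      · have hl : ¬ G.Adj x y := by rw [← hwx]; exact e1 w hw.1 y h
        have := fun h' => hnPQ y h' h
        tauto
      · have hl : ¬ G.Adj x y := inv_ne hc (Finset.mem_union_right _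
          (Finset.mem_image.2 ⟨w, hwO, hwx⟩)) h hxy
        tauto
    · have hx2' := hx1
      rw [hW2, Finset.mem_filter] at hx2'
      have hxO := s2 hx2'.1
      have hx1n : x ∉ W1 := by
        rw [hW1]
        intro h
        obtain ⟨w, hw, hwx⟩ := Finset.mem_image.1 h
        rw [Finset.mem_filter] at hw
        rw [← hwx] at hxO
        exact hw.2 (pi_mem hc (s1 hw.1) hxO)
      have hedge := (hE x hxO).resolve_left hx2'.2
      rcases hycase with h | h | ⟨h, h', h''⟩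
      · have hl : ¬ G.Adj x y := e2 x hx2'.1 y h
        have := hnPQ y h
        tauto
      · have hl : G.Adj x y := hedge.2.2 y h
        tauto
      · have hl : ¬ G.Adj x y := inv_ne hc (Finset.mem_union_left _ hxO) h hxy
        tauto

/-! ### attaching single vertices -/

theorem attach1 (hA : AttachStmt) : ∃ B : ℕ → ℕ, ∀ (V : Type) (G : SimpleGraph V) (K : ℕ)
    (V0 W : Finset V) (p : V → V) (lab : V → Lb) (F : Lb → Lb → Prop), BD G K V0 →
    Disjoint V0 W → (∀ w ∈ W, p w ∈ V0) → (∀ w ∈ W, ∀ w' ∈ W, p w = p w' → w = w') →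
    (∀ x ∈ W, ∀ y ∈ V0 ∪ W, y ≠ x → y ≠ p x → (G.Adj x y ↔ F (lab x) (lab y))) →
    BD G (B K) (V0 ∪ W) := by
  obtain ⟨BA, hA⟩ := hA
  refine ⟨fun K => BA K (2 ^ 2) (Fintype.card Lb), ?_⟩
  intro V G K V0 W p lab F h0 hd hp hinj hadj
  obtain ⟨b, hb⟩ : ∃ b : V → V, ∀ z, b z = if z ∈ W then p z else z := ⟨_, fun _ => rfl⟩
  have hb0 : ∀ z ∈ V0, b z = z := fun z hz => by
    rw [hb, if_neg (Finset.disjoint_left.1 hd hz)]
  have hbW : ∀ z ∈ W, b z = p z := fun z hz => by rw [hb, if_pos hz]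
  refine hA V G Lb V K (2 ^ 2) V0 W lab F b h0 ?_ ?_ ?_
  · intro x hx y hy hxy
    rw [hb0 x hx, hb0 y hy] at hxy
    exact hxy
  · intro x hx
    apply BD.card
    obtain ⟨S, hS⟩ : ∃ S, S = (V0 ∪ W).filter (fun y => b y = b x) := ⟨_, rfl⟩
    rw [← hS]
    have h1 : (S ∩ W).card ≤ 1 := by
      rw [Finset.card_le_one]
      intro y hy z hz
      rw [Finset.mem_inter, hS, Finset.mem_filter] at hy hz
      apply hinj y hy.2 z hz.2
      rw [← hbW y hy.2, ← hbW z hz.2, hy.1.2, hz.1.2]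
    have h2 : (S \ W).card ≤ 1 := by
      rw [Finset.card_le_one]
      intro y hy z hz
      rw [Finset.mem_sdiff, hS, Finset.mem_filter, Finset.mem_union] at hy hz
      have hy0 := hy.1.1.resolve_right hy.2
      have hz0 := hz.1.1.resolve_right hz.2
      rw [← hb0 y hy0, ← hb0 z hz0, hy.1.2, hz.1.2]
    have h3 := Finset.card_sdiff_add_card_inter S W
    omega
  · intro x hx y hy hxy
    apply hadj x hx y hy
    · rintro rfl
      exact hxy rfl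
    · rintro rfl
      exact hxy (by rw [hbW x hx, hb0 _ (hp x hx)])

/-! ### blocks of four vertices -/

theorem four (hA : AttachStmt) : ∃ K : ℕ, ∀ (V : Type) (G : SimpleGraph V) (A C : Finset V),
    Disjoint A C → (∀ x ∈ A, ∃ y ∈ C, ¬ G.Adj x y) → (∀ y ∈ C, ∃ x ∈ A, ¬ G.Adj x y) →
    (∀ x ∈ A, ∀ x' ∈ A, ∀ y ∈ C, ¬ G.Adj x y → ¬ G.Adj x' y → x = x') →
    (∀ x ∈ A, ∀ y ∈ C, ∀ y' ∈ C, ¬ G.Adj x y → ¬ G.Adj x y' → y = y') →
    (∀ x ∈ A, ∃ x' ∈ A, G.Adj x x') → (∀ y ∈ C, ∃ y' ∈ C, G.Adj y y') →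
    (∀ x ∈ A, ∀ x' ∈ A, ∀ y ∈ C, ∀ y' ∈ C, ¬ G.Adj x y → G.Adj x x' → G.Adj y y' →
      ¬ G.Adj x' y') → BD G K (A ∪ C) := by
  obtain ⟨BA, hA⟩ := hA
  refine ⟨BA 0 (2 ^ 4) (Fintype.card Lb), ?_⟩
  intro V G A C hd hpA hpC hL hL' hmA hmC h3
  have hAC : ∀ z ∈ A, z ∉ C := fun z hz => Finset.disjoint_left.1 hd hz
  obtain ⟨M, hM⟩ : ∃ M : V → V → Prop, ∀ u v, M u v ↔
    ((u ∈ A ∧ v ∈ A) ∨ (u ∈ C ∧ v ∈ C)) ∧ G.Adj u v := ⟨_, fun _ _ => Iff.rfl⟩
  obtain ⟨N, hN⟩ : ∃ N : V → V → Prop, ∀ u v, N u v ↔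
    ((u ∈ A ∧ v ∈ C) ∨ (u ∈ C ∧ v ∈ A)) ∧ ¬ G.Adj u v := ⟨_, fun _ _ => Iff.rfl⟩
  have hMs : ∀ {u v}, M u v → M v u := by
    intro u v h
    rw [hM] at h ⊢
    exact ⟨by tauto, h.2.symm⟩
  have hNs : ∀ {u v}, N u v → N v u := by
    intro u v h
    rw [hN] at h ⊢
    exact ⟨by tauto, fun h' => h.2 h'.symm⟩
  have hMe : ∀ u, u ∈ A ∪ C → ∃ v, M u v := by
    intro u hu
    rcases Finset.mem_union.1 hu with h | h
    · obtain ⟨v, hv, h'⟩ := hmA u h
      exact ⟨v, (hM u v).2 ⟨Or.inl ⟨h, hv⟩, h'⟩⟩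
    · obtain ⟨v, hv, h'⟩ := hmC u h
      exact ⟨v, (hM u v).2 ⟨Or.inr ⟨h, hv⟩, h'⟩⟩
  have hNe : ∀ u, u ∈ A ∪ C → ∃ v, N u v := by
    intro u hu
    rcases Finset.mem_union.1 hu with h | h
    · obtain ⟨v, hv, h'⟩ := hpA u h
      exact ⟨v, (hN u v).2 ⟨Or.inl ⟨h, hv⟩, h'⟩⟩
    · obtain ⟨v, hv, h'⟩ := hpC u h
      exact ⟨v, (hN u v).2 ⟨Or.inr ⟨h, hv⟩, fun h'' => h' h''.symm⟩⟩
  have hMS : ∀ {u v}, M u v → v ∈ A ∪ C := by
    intro u v h
    rw [hM] at h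
    rcases h.1 with h | h
    · exact Finset.mem_union_left _ h.2
    · exact Finset.mem_union_right _ h.2
  have hNS : ∀ {u v}, N u v → v ∈ A ∪ C := by
    intro u v h
    rw [hN] at h
    rcases h.1 with h | h
    · exact Finset.mem_union_right _ h.2
    · exact Finset.mem_union_left _ h.2
  have hNu : ∀ {u v v'}, N u v → N u v' → v = v' := by
    intro u v v' h h'
    rw [hN] at h h'
    rcases h.1 with ⟨k1, k2⟩ | ⟨k1, k2⟩ <;> rcases h'.1 with ⟨k3, k4⟩ | ⟨k3, k4⟩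
    · exact hL' u k1 v k2 v' k4 h.2 h'.2
    · exact absurd k3 (hAC u k1)
    · exact absurd k1 (hAC u k3)
    · exact hL v k2 v' k4 u k1 (fun hh => h.2 hh.symm) (fun hh => h'.2 hh.symm)
  have h3' : ∀ {u u' v v'}, M u u' → N u v → M v v' → N u' v' := by
    intro u u' v v' h1 h2 h4
    rw [hM] at h1 h4
    rw [hN] at h2 ⊢
    rcases h2.1 with ⟨k1, k2⟩ | ⟨k1, k2⟩
    · have k3 : u' ∈ A := by
        rcases h1.1 with h | h
        · exact h.2
        · exact absurd h.1 (hAC u k1)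
      have k4 : v' ∈ C := by
        rcases h4.1 with h | h
        · exact absurd k2 (hAC v h.1)
        · exact h.2
      exact ⟨Or.inl ⟨k3, k4⟩, h3 u k1 u' k3 v k2 v' k4 h2.2 h1.2 h4.2⟩
    · have k3 : u' ∈ C := by
        rcases h1.1 with h | h
        · exact absurd k1 (hAC u h.1)
        · exact h.2
      have k4 : v' ∈ A := by
        rcases h4.1 with h | h
        · exact h.2
        · exact absurd h.1 (hAC v k2)
      exact ⟨Or.inr ⟨k3, k4⟩, fun hh => h3 v k2 v' k4 u k1 u' k3 (fun h5 => h2.2 h5.symm)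
        h4.2 h1.2 hh.symm⟩
  choose! m hm using hMe
  choose! p hp using hNe
  have hMu : ∀ {u v v'}, M u v → M u v' → u ∈ A ∪ C → v = v' := by
    intro u v v' h h' hu
    have k1 := h3' h (hp u hu) (hm _ (hNS (hp u hu)))
    have k2 := h3' h' (hp u hu) (hm _ (hNS (hp u hu)))
    exact hNu (hNs k1) (hNs k2)
  have hmS : ∀ u ∈ A ∪ C, m u ∈ A ∪ C := fun u hu => hMS (hm u hu)
  have hpS : ∀ u ∈ A ∪ C, p u ∈ A ∪ C := fun u hu => hNS (hp u hu)
  have hmm : ∀ u ∈ A ∪ C, m (m u) = u := fun u hu =>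
    hMu (hm _ (hmS u hu)) (hMs (hm u hu)) (hmS u hu)
  have hpp : ∀ u ∈ A ∪ C, p (p u) = u := fun u hu =>
    hNu (hp _ (hpS u hu)) (hNs (hp u hu))
  have hpm : ∀ u ∈ A ∪ C, p (m u) = m (p u) := fun u hu =>
    hNu (hp _ (hmS u hu)) (h3' (hm u hu) (hp u hu) (hm _ (hpS u hu)))
  obtain ⟨b, hb⟩ : ∃ b : V → Set V, ∀ u, b u = {u, m u, p u, m (p u)} := ⟨_, fun _ => rfl⟩
  have hbm : ∀ u ∈ A ∪ C, b (m u) = b u := by
    intro u hu
    rw [hb, hb, hmm u hu, hpm u hu, hmm _ (hpS u hu)]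
    ext z
    simp only [Set.mem_insert_iff, Set.mem_singleton_iff]
    tauto
  have hbp : ∀ u ∈ A ∪ C, b (p u) = b u := by
    intro u hu
    rw [hb, hb, hpp u hu]
    ext z
    simp only [Set.mem_insert_iff, Set.mem_singleton_iff]
    tauto
  have hu : BD G (BA 0 (2 ^ 4) (Fintype.card Lb)) (∅ ∪ (A ∪ C)) := by
    refine hA V G Lb (Set V) 0 (2 ^ 4) ∅ (A ∪ C) (fun z => (z ∈ A, z ∈ C, False, False))
      (fun l l' => (l.1 ∧ l'.2.1) ∨ (l.2.1 ∧ l'.1)) b BD.empty ?_ ?_ ?_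
    · intro x hx
      simp at hx
    · intro x hx
      apply BD.card
      refine le_trans (Finset.card_le_card (t := {x, m x, p x, m (p x)}) ?_)
        Finset.card_le_four
      intro y hy
      rw [Finset.mem_filter] at hy
      have h1 : y ∈ b x := by
        rw [← hy.2, hb]
        simp
      rw [hb] at h1
      simpa using h1
    · intro x hx y hy hxy
      rw [Finset.empty_union] at hy
      show G.Adj x y ↔ (x ∈ A ∧ y ∈ C) ∨ (x ∈ C ∧ y ∈ A)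
      have k1 : ¬ M x y := by
        intro h
        have := hMu h (hm x hx) hx
        rw [this] at hxy
        exact hxy (hbm x hx).symm
      have k2 : ¬ N x y := by
        intro h
        have := hNu h (hp x hx)
        rw [this] at hxy
        exact hxy (hbp x hx).symm
      rw [hM] at k1
      rw [hN] at k2
      have k3 := hAC x
      have k4 := hAC y
      rcases Finset.mem_union.1 hx with h | h <;> rcases Finset.mem_union.1 hy with h' | h' <;>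
        tauto
  rwa [Finset.empty_union] at hu

/-! ### no crossing coordinates -/

theorem nb_empty {S : Finset V} {x : V} : nb G S x = ∅ ↔ ∀ y ∈ S, ¬ G.Adj x y := by
  constructor
  · intro h y hy hadj
    have : y ∈ nb G S x := mem_nb.2 ⟨hy, hadj⟩
    rw [h] at this
    simp at this
  · intro h
    apply Finset.eq_empty_of_forall_notMem
    intro y hy
    rw [mem_nb] at hy
    exact h y hy.1 hy.2

theorem nb_nonempty {S : Finset V} {x : V} (h : nb G S x ≠ ∅) : ∃ y ∈ S, G.Adj x y := by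
  by_contra hcon
  push Not at hcon
  exact h (nb_empty.2 hcon)

theorem noCross (hA : AttachStmt) (hT : TwoStmt) (hZ : ZStmt) :
    ∃ K : ℕ, ∀ (V : Type) (G : SimpleGraph V), NoGem G → NoP23 G → NoC5 G →
      ∀ (v0 v1 v2 v3 : V) (P Q Ω : Finset V) (π : V → V), CPCfg G v0 v1 v2 v3 P Q Ω π →
      (∀ w ∈ Ω, nb G P w = ∅ ∨ nb G Q (π w) = ∅) → BD G K (P ∪ Q ∪ Ω ∪ Ω.image π) := by
  obtain ⟨KC, hC⟩ := coreC hA hT hZ
  obtain ⟨K4, h4⟩ := four hA
  obtain ⟨B1, h1⟩ := attach1 hA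
  obtain ⟨BT, hT⟩ := hT
  refine ⟨B1 (B1 (BT KC K4 (Fintype.card Lb))), ?_⟩
  intro V G hg hp h5 v0 v1 v2 v3 P Q Ω π hc hno
  have hc' := hc
  obtain ⟨c22, hP, hQ, hO, hO', hOO, hE⟩ := hc'
  have tP : ∀ x ∈ P, TP G v0 v1 v2 v3 x := hP
  have tQ : ∀ x ∈ Q, TQ G v0 v1 v2 v3 x := hQ
  obtain ⟨U, hU⟩ : ∃ U, U = Ω ∪ Ω.image π := ⟨_, rfl⟩
  have tU : ∀ w ∈ U, A4 G v0 v1 v2 v3 w := by
    intro w hw
    rw [hU] at hw
    rcases Finset.mem_union.1 hw with h | h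
    · exact hO w h
    · obtain ⟨z, hz, rfl⟩ := Finset.mem_image.1 h
      exact hO' z hz
  have hnPQ : ∀ x ∈ P, x ∉ Q := fun x hx => nPQ hc hx
  have hnUP : ∀ w ∈ U, w ∉ P := fun w hw h => (tU w hw).1 (tP w h).1
  have hnUQ : ∀ w ∈ U, w ∉ Q := fun w hw h => (tU w hw).2.1 (tQ w h).1
  have L0 : ∀ x ∈ P, ∀ y ∈ Q, ¬ G.Adj x y → ∀ w ∈ U, ¬ G.Adj x w ∧ ¬ G.Adj y w :=
    fun x hx y hy h w hw => x0 hp h5 c22 (tP x hx) (tQ y hy) h (tU w hw)
  have L2 : ∀ x ∈ P, ∀ x' ∈ P, ∀ y ∈ Q, ¬ G.Adj x y → ¬ G.Adj x' y → x = x' :=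
    fun x hx x' hx' y hy h h' => l2 hp h5 c22 (tP x hx) (tP x' hx') (tQ y hy) h h'
  have L2' : ∀ x ∈ P, ∀ y ∈ Q, ∀ y' ∈ Q, ¬ G.Adj x y → ¬ G.Adj x y' → y = y' :=
    fun x hx y hy y' hy' h h' => l2' hp h5 c22 (tP x hx) (tQ y hy) (tQ y' hy') h h'
  have L3 : ∀ x ∈ P, ∀ x' ∈ P, ∀ y ∈ Q, ∀ y' ∈ Q, ¬ G.Adj x y → G.Adj x x' → G.Adj y y' →
      ¬ G.Adj x' y' := fun x hx x' hx' y hy y' hy' h h' h'' =>
    l3 hg hp h5 c22 (tP x hx) (tP x' hx') (tQ y hy) (tQ y' hy') h h' h''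
  obtain ⟨LQ, hLQ⟩ : ∃ S, S = Q.filter (fun y => nb G Q y = ∅ ∧ ∃ x ∈ P, ¬ G.Adj x y) := ⟨_, rfl⟩
  obtain ⟨Q1, hQ1⟩ : ∃ S, S = Q \ LQ := ⟨_, rfl⟩
  obtain ⟨LP, hLP⟩ : ∃ S, S = P.filter (fun x => nb G P x = ∅ ∧ ∃ y ∈ Q1, ¬ G.Adj x y) := ⟨_, rfl⟩
  obtain ⟨P1, hP1⟩ : ∃ S, S = P \ LP := ⟨_, rfl⟩
  obtain ⟨P4, hP4⟩ : ∃ S, S = P1.filter (fun x => ∃ y ∈ Q1, ¬ G.Adj x y) := ⟨_, rfl⟩
  obtain ⟨Q4, hQ4⟩ : ∃ S, S = Q1.filter (fun y => ∃ x ∈ P1, ¬ G.Adj x y) := ⟨_, rfl⟩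
  have sLQ : ∀ z ∈ LQ, z ∈ Q := by rw [hLQ]; exact fun z hz => (Finset.mem_filter.1 hz).1
  have sLP : ∀ z ∈ LP, z ∈ P := by rw [hLP]; exact fun z hz => (Finset.mem_filter.1 hz).1
  have sQ1 : ∀ z ∈ Q1, z ∈ Q := by rw [hQ1]; exact fun z hz => (Finset.mem_sdiff.1 hz).1
  have sP1 : ∀ z ∈ P1, z ∈ P := by rw [hP1]; exact fun z hz => (Finset.mem_sdiff.1 hz).1
  have sQ4 : ∀ z ∈ Q4, z ∈ Q1 := by rw [hQ4]; exact fun z hz => (Finset.mem_filter.1 hz).1
  have sP4 : ∀ z ∈ P4, z ∈ P1 := by rw [hP4]; exact fun z hz => (Finset.mem_filter.1 hz).1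
  have mP4 : ∀ x ∈ P1, ∀ y ∈ Q1, ¬ G.Adj x y → x ∈ P4 ∧ y ∈ Q4 := by
    intro x hx y hy h
    rw [hP4, hQ4, Finset.mem_filter, Finset.mem_filter]
    exact ⟨⟨hx, y, hy, h⟩, ⟨hy, x, hx, h⟩⟩
  -- linked vertices which remain have neighbours on their side
  have nQ : ∀ y ∈ Q1, ∀ x ∈ P, ¬ G.Adj x y → ∃ y' ∈ Q1, G.Adj y y' := by
    intro y hy x hx h
    have hy' := hy
    rw [hQ1, Finset.mem_sdiff] at hy'
    have hne : nb G Q y ≠ ∅ := by
      intro h0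
      apply hy'.2
      rw [hLQ, Finset.mem_filter]
      exact ⟨hy'.1, h0, x, hx, h⟩
    obtain ⟨y', hy1, hadj⟩ := nb_nonempty hne
    refine ⟨y', ?_, hadj⟩
    rw [hQ1, Finset.mem_sdiff]
    refine ⟨hy1, fun h' => ?_⟩
    rw [hLQ, Finset.mem_filter] at h'
    exact nb_empty.1 h'.2.1 y hy'.1 hadj.symm
  have mP1 : ∀ x' ∈ P, ∀ x ∈ P, G.Adj x' x → x' ∈ P1 := by
    intro x' hx' x hx hadj
    rw [hP1, Finset.mem_sdiff]
    refine ⟨hx', fun h' => ?_⟩
    rw [hLP, Finset.mem_filter] at h'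
    exact nb_empty.1 h'.2.1 x hx hadj
  have nP : ∀ x ∈ P1, ∀ y ∈ Q1, ¬ G.Adj x y → ∃ x' ∈ P1, G.Adj x x' := by
    intro x hx y hy h
    have hx' := hx
    rw [hP1, Finset.mem_sdiff] at hx'
    have hne : nb G P x ≠ ∅ := by
      intro h0
      apply hx'.2
      rw [hLP, Finset.mem_filter]
      exact ⟨hx'.1, h0, y, hy, h⟩
    obtain ⟨x', hx1, hadj⟩ := nb_nonempty hne
    exact ⟨x', mP1 x' hx1 x hx'.1 hadj.symm, hadj⟩
  -- the core
  have hcore : BD G KC ((P1 \ P4) ∪ (Q1 \ Q4) ∪ Ω ∪ Ω.image π) := by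
    apply hC V G hg hp v0 v1 v2 v3
    · exact cfg_mono hc (fun z hz => sP1 z (Finset.mem_sdiff.1 hz).1)
        (fun z hz => sQ1 z (Finset.mem_sdiff.1 hz).1) (Finset.Subset.refl _)
    · intro x hx y hy
      rw [Finset.mem_sdiff] at hx hy
      by_contra h
      exact hx.2 (mP4 x hx.1 y hy.1 h).1
    · intro w hw
      rcases hno w hw with h | h
      · left
        rw [nb_empty] at h ⊢
        exact fun z hz => h z (sP1 z (Finset.mem_sdiff.1 hz).1)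
      · right
        rw [nb_empty] at h ⊢
        exact fun z hz => h z (sQ1 z (Finset.mem_sdiff.1 hz).1)
  have hfour : BD G K4 (P4 ∪ Q4) := by
    have g1 : ∀ x ∈ P4, ∃ y ∈ Q4, ¬ G.Adj x y := by
      intro x hx
      have hx' := hx
      rw [hP4, Finset.mem_filter] at hx'
      obtain ⟨h, y, hy, h'⟩ := hx'
      exact ⟨y, (mP4 x h y hy h').2, h'⟩
    have g2 : ∀ y ∈ Q4, ∃ x ∈ P4, ¬ G.Adj x y := by
      intro y hy
      have hy' := hy
      rw [hQ4, Finset.mem_filter] at hy'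
      obtain ⟨h, x, hx, h'⟩ := hy'
      exact ⟨x, (mP4 x hx y h h').1, h'⟩
    apply h4 V G P4 Q4
    · rw [Finset.disjoint_left]
      exact fun x hx hx' => hnPQ x (sP1 x (sP4 x hx)) (sQ1 x (sQ4 x hx'))
    · exact g1
    · exact g2
    · exact fun x hx x' hx' y hy => L2 x (sP1 x (sP4 x hx)) x' (sP1 x' (sP4 x' hx')) y
        (sQ1 y (sQ4 y hy))
    · exact fun x hx y hy y' hy' => L2' x (sP1 x (sP4 x hx)) y (sQ1 y (sQ4 y hy)) y'
        (sQ1 y' (sQ4 y' hy'))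
    · intro x hx
      obtain ⟨y, hy, h⟩ := g1 x hx
      have hx1 := sP4 x hx
      have hy1 := sQ4 y hy
      obtain ⟨x', hx', k1⟩ := nP x hx1 y hy1 h
      obtain ⟨y', hy', k2⟩ := nQ y hy1 x (sP1 x hx1) h
      have k3 := L3 x (sP1 x hx1) x' (sP1 x' hx') y (sQ1 y hy1) y' (sQ1 y' hy') h k1 k2
      exact ⟨x', (mP4 x' hx' y' hy' k3).1, k1⟩
    · intro y hy
      obtain ⟨x, hx, h⟩ := g2 y hy
      have hx1 := sP4 x hx
      have hy1 := sQ4 y hy
      obtain ⟨x', hx', k1⟩ := nP x hx1 y hy1 h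
      obtain ⟨y', hy', k2⟩ := nQ y hy1 x (sP1 x hx1) h
      have k3 := L3 x (sP1 x hx1) x' (sP1 x' hx') y (sQ1 y hy1) y' (sQ1 y' hy') h k1 k2
      exact ⟨y', (mP4 x' hx' y' hy' k3).2, k2⟩
    · exact fun x hx x' hx' y hy y' hy' => L3 x (sP1 x (sP4 x hx)) x' (sP1 x' (sP4 x' hx')) y
        (sQ1 y (sQ4 y hy)) y' (sQ1 y' (sQ4 y' hy'))
  -- labels
  obtain ⟨lab, hlab⟩ : ∃ lab : V → Lb, lab = fun z => (z ∈ P, z ∈ Q, False, False) := ⟨_, rfl⟩
  obtain ⟨F, hF⟩ : ∃ F : Lb → Lb → Prop, F = fun l l' => (l.1 ∧ l'.2.1) ∨ (l.2.1 ∧ l'.1) :=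
    ⟨_, rfl⟩
  have hFl : ∀ x y, F (lab x) (lab y) ↔ (x ∈ P ∧ y ∈ Q) ∨ (x ∈ Q ∧ y ∈ P) := by
    intro x y
    rw [hF, hlab]
  have hstep1 : BD G (BT KC K4 (Fintype.card Lb))
      (((P1 \ P4) ∪ (Q1 \ Q4) ∪ Ω ∪ Ω.image π) ∪ (P4 ∪ Q4)) := by
    refine hT V G Lb KC K4 _ _ lab F ?_ hcore hfour ?_
    · rw [Finset.disjoint_left]
      intro x hx hx'
      rw [Finset.mem_union] at hx'
      rw [Finset.union_assoc, Finset.mem_union, Finset.mem_union, ← hU, Finset.mem_sdiff,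
        Finset.mem_sdiff] at hx
      rcases hx with (h | h) | h <;> rcases hx' with h' | h'
      · exact h.2 h'
      · exact hnPQ x (sP1 x h.1) (sQ1 x (sQ4 x h'))
      · exact hnPQ x (sP1 x (sP4 x h')) (sQ1 x h.1)
      · exact h.2 h'
      · exact hnUP x h (sP1 x (sP4 x h'))
      · exact hnUQ x h (sQ1 x (sQ4 x h'))
    · intro x hx y hy
      rw [hFl]
      rw [Finset.mem_union] at hy
      rw [Finset.union_assoc, Finset.mem_union, Finset.mem_union, ← hU, Finset.mem_sdiff,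
        Finset.mem_sdiff] at hx
      rcases hy with hy | hy
      · have hy1 := sP4 y hy
        have hyP := sP1 y hy1
        have hyQ := hnPQ y hyP
        have hy4 := hy
        rw [hP4, Finset.mem_filter] at hy4
        obtain ⟨-, q, hq, hyq⟩ := hy4
        rcases hx with (hx | hx) | hx
        · have hl : ¬ G.Adj x y := by
            intro hadj
            obtain ⟨q', hq', k2⟩ := nQ q hq y hyP hyq
            have k3 := L3 y hyP x (sP1 x hx.1) q (sQ1 q hq) q' (sQ1 q' hq') hyq hadj.symm k2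
            exact hx.2 (mP4 x hx.1 q' hq' k3).1
          have := hnPQ x (sP1 x hx.1)
          tauto
        · have hl : G.Adj x y := by
            by_contra hn
            exact hx.2 (mP4 y hy1 x hx.1 (fun h => hn h.symm)).2
          have := sQ1 x hx.1
          tauto
        · have hl : ¬ G.Adj x y := fun h => (L0 y hyP q (sQ1 q hq) hyq x hx).1 h.symm
          have := hnUP x hx
          have := hnUQ x hx
          tauto
      · have hy1 := sQ4 y hy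
        have hyQ := sQ1 y hy1
        have hyP : y ∉ P := fun h => hnPQ y h hyQ
        have hy4 := hy
        rw [hQ4, Finset.mem_filter] at hy4
        obtain ⟨-, q, hq, hyq⟩ := hy4
        rcases hx with (hx | hx) | hx
        · have hl : G.Adj x y := by
            by_contra hn
            exact hx.2 (mP4 x hx.1 y hy1 hn).1
          have := sP1 x hx.1
          tauto
        · have hl : ¬ G.Adj x y := by
            intro hadj
            obtain ⟨q', hq', k2⟩ := nP q hq y hy1 hyq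
            have k3 := L3 q (sP1 q hq) q' (sP1 q' hq') y hyQ x (sQ1 x hx.1) hyq k2 hadj.symm
            exact hx.2 (mP4 q' hq' x hx.1 k3).2
          have : x ∉ P := fun h => hnPQ x h (sQ1 x hx.1)
          tauto
        · have hl : ¬ G.Adj x y := fun h => (L0 q (sP1 q hq) y hyQ hyq x hx).2 h.symm
          have := hnUP x hx
          have := hnUQ x hx
          tauto
  -- attach the isolated linked vertices of `P`
  have hex1 : ∀ x, x ∈ LP → ∃ y, y ∈ Q1 ∧ ¬ G.Adj x y := by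
    intro x hx
    rw [hLP, Finset.mem_filter] at hx
    obtain ⟨-, -, y, hy, h⟩ := hx
    exact ⟨y, hy, h⟩
  choose! p1 hp1 using hex1
  have hstep2 := h1 V G _ _ LP p1 lab F (hstep1.sub (B := P1 ∪ Q1 ∪ U) (by
    intro z hz
    simp only [Finset.mem_union, Finset.mem_sdiff, hU] at hz ⊢
    by_cases k1 : z ∈ P4
    · exact Or.inr (Or.inl k1)
    · by_cases k2 : z ∈ Q4
      · exact Or.inr (Or.inr k2)
      · rcases hz with (h | h) | h | h
        · exact Or.inl (Or.inl (Or.inl (Or.inl ⟨h, k1⟩)))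
        · exact Or.inl (Or.inl (Or.inl (Or.inr ⟨h, k2⟩)))
        · exact Or.inl (Or.inl (Or.inr h))
        · exact Or.inl (Or.inr h))) ?_ ?_ ?_ ?_
  rotate_left
  · rw [Finset.disjoint_left]
    intro x hx hx'
    rw [Finset.mem_union, Finset.mem_union] at hx
    rcases hx with (h | h) | h
    · rw [hP1, Finset.mem_sdiff] at h
      exact h.2 hx'
    · exact hnPQ x (sLP x hx') (sQ1 x h)
    · exact hnUP x h (sLP x hx')
  · intro w hw
    exact Finset.mem_union_left _ (Finset.mem_union_right _ (hp1 w hw).1)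
  · intro w hw w' hw' h
    have k1 := hp1 w hw
    have k2 := hp1 w' hw'
    rw [← h] at k2
    exact L2 w (sLP w hw) w' (sLP w' hw') _ (sQ1 _ k1.1) k1.2 k2.2
  · intro x hx y hy hyx hyp
    rw [hFl]
    have k1 := hp1 x hx
    have hxP := sLP x hx
    have hxQ := hnPQ x hxP
    have hcase : y ∈ P ∨ y ∈ Q ∨ y ∈ U := by
      simp only [Finset.mem_union] at hy
      rcases hy with ((h | h) | h) | h
      · exact Or.inl (sP1 y h)
      · exact Or.inr (Or.inl (sQ1 y h))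
      · exact Or.inr (Or.inr h)
      · exact Or.inl (sLP y h)
    rcases hcase with h | h | h
    · have hl : ¬ G.Adj x y := by
        rw [hLP, Finset.mem_filter] at hx
        exact nb_empty.1 hx.2.1 y h
      have := hnPQ y h
      tauto
    · have hl : G.Adj x y := by
        by_contra hn
        exact hyp (L2' x hxP y h _ (sQ1 _ k1.1) hn k1.2)
      tauto
    · have hl : ¬ G.Adj x y := (L0 x hxP _ (sQ1 _ k1.1) k1.2 y h).1
      have := hnUP y h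
      have := hnUQ y h
      tauto
  -- attach the isolated linked vertices of `Q`
  have hex2 : ∀ y, y ∈ LQ → ∃ x, x ∈ P ∧ ¬ G.Adj x y := by
    intro y hy
    rw [hLQ, Finset.mem_filter] at hy
    obtain ⟨-, -, x, hx, h⟩ := hy
    exact ⟨x, hx, h⟩
  choose! p2 hp2 using hex2
  have hstep3 := h1 V G _ _ LQ p2 lab F (hstep2.sub (B := P ∪ Q1 ∪ U) (by
    intro z hz
    simp only [Finset.mem_union] at hz ⊢
    rcases hz with (h | h) | h
    · by_cases k : z ∈ LP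
      · exact Or.inr k
      · exact Or.inl (Or.inl (Or.inl (by rw [hP1, Finset.mem_sdiff]; exact ⟨h, k⟩)))
    · exact Or.inl (Or.inl (Or.inr h))
    · exact Or.inl (Or.inr h))) ?_ ?_ ?_ ?_
  rotate_left
  · rw [Finset.disjoint_left]
    intro x hx hx'
    rw [Finset.mem_union, Finset.mem_union] at hx
    rcases hx with (h | h) | h
    · exact hnPQ x h (sLQ x hx')
    · rw [hQ1, Finset.mem_sdiff] at h
      exact h.2 hx'
    · exact hnUQ x h (sLQ x hx')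
  · intro w hw
    exact Finset.mem_union_left _ (Finset.mem_union_left _ (hp2 w hw).1)
  · intro w hw w' hw' h
    have k1 := hp2 w hw
    have k2 := hp2 w' hw'
    rw [← h] at k2
    exact L2' _ k1.1 w (sLQ w hw) w' (sLQ w' hw') k1.2 k2.2
  · intro x hx y hy hyx hyp
    rw [hFl]
    have k1 := hp2 x hx
    have hxQ := sLQ x hx
    have hxP : x ∉ P := fun h => hnPQ x h hxQ
    have hcase : y ∈ P ∨ y ∈ Q ∨ y ∈ U := by
      simp only [Finset.mem_union] at hy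
      rcases hy with ((h | h) | h) | h
      · exact Or.inl h
      · exact Or.inr (Or.inl (sQ1 y h))
      · exact Or.inr (Or.inr h)
      · exact Or.inr (Or.inl (sLQ y h))
    rcases hcase with h | h | h
    · have hl : G.Adj x y := by
        by_contra hn
        exact hyp (L2 y h _ k1.1 x hxQ (fun h' => hn h'.symm) k1.2)
      tauto
    · have hl : ¬ G.Adj x y := by
        rw [hLQ, Finset.mem_filter] at hx
        exact nb_empty.1 hx.2.1 y h
      have : y ∉ P := fun h' => hnPQ y h' h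
      tauto
    · have hl : ¬ G.Adj x y := (L0 _ k1.1 x hxQ k1.2 y h).2
      have := hnUP y h
      have := hnUQ y h
      tauto
  refine hstep3.sub ?_
  intro z hz
  simp only [Finset.mem_union, hU] at hz ⊢
  rcases hz with ((h | h) | h) | h
  · exact Or.inl (Or.inl (Or.inl h))
  · by_cases k : z ∈ LQ
    · exact Or.inr k
    · exact Or.inl (Or.inl (Or.inr (by rw [hQ1, Finset.mem_sdiff]; exact ⟨h, k⟩)))
  · exact Or.inl (Or.inr (Or.inl h))
  · exact Or.inl (Or.inr (Or.inr h))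

/-! ### many traces -/

/-- crossing coordinate -/
def Cr (G : SimpleGraph V) (P Q Ω : Finset V) (π : V → V) (w : V) : Prop :=
  w ∈ Ω ∧ (nb G P w).Nonempty ∧ (nb G Q (π w)).Nonempty

theorem edgeP {v0 v1 v2 v3 : V} {P Q Ω : Finset V} {π : V → V}
    (hc : CPCfg G v0 v1 v2 v3 P Q Ω π) {w x : V} (hw : w ∈ Ω) (hx : x ∈ P) (h : G.Adj w x) :
    G.Adj (π w) x := by
  rcases hc.2.2.2.2.2.2 w hw with h' | h'
  · rw [h']; exact h
  · exact h'.2.1 x hx

theorem edgeQ {v0 v1 v2 v3 : V} {P Q Ω : Finset V} {π : V → V}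
    (hc : CPCfg G v0 v1 v2 v3 P Q Ω π) {w y : V} (hw : w ∈ Ω) (hy : y ∈ Q) (h : G.Adj (π w) y) :
    G.Adj w y := by
  rcases hc.2.2.2.2.2.2 w hw with h' | h'
  · rw [h'] at h; exact h
  · exact h'.2.2 y hy

theorem manyTraces (hA : AttachStmt) (hT : TwoStmt) (hZ : ZStmt) :
    ∃ K : ℕ, ∀ (V : Type) (G : SimpleGraph V), NoGem G → NoP23 G → NoC5 G →
      ∀ (v0 v1 v2 v3 : V) (P Q Ω : Finset V) (π : V → V), CPCfg G v0 v1 v2 v3 P Q Ω π →
      (∀ x, Cr G P Q Ω π x → ∀ y, Cr G P Q Ω π y → nb G Q (π x) = nb G Q (π y) ∨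
        Disjoint (nb G Q (π x)) (nb G Q (π y))) →
      (∃ w1, Cr G P Q Ω π w1 ∧ ∃ w2, Cr G P Q Ω π w2 ∧ nb G Q (π w1) ≠ nb G Q (π w2)) →
      BD G K (P ∪ Q ∪ Ω ∪ Ω.image π) := by
  obtain ⟨KN, hN⟩ := noCross hA hT hZ
  obtain ⟨BA, hA⟩ := hA
  refine ⟨BA KN 1 (Fintype.card Lb), ?_⟩
  intro V G hg hp h5 v0 v1 v2 v3 P Q Ω π hc hlam h2
  have hc' := hc
  obtain ⟨c22, hP, hQ, hO, hO', hOO, hE⟩ := hc'
  have tP : ∀ x ∈ P, TP G v0 v1 v2 v3 x := hP
  have tQ : ∀ x ∈ Q, TQ G v0 v1 v2 v3 x := hQ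
  have tO : ∀ w ∈ Ω, A4 G v0 v1 v2 v3 w := hO
  have tO' : ∀ w ∈ Ω, A4 G v0 v1 v2 v3 (π w) := hO'
  have hnPQ : ∀ x ∈ P, x ∉ Q := fun x hx => nPQ hc hx
  have hnOP : ∀ w ∈ Ω, w ∉ P := fun x hx => nOP hc hx
  have hnOQ : ∀ w ∈ Ω, w ∉ Q := fun x hx => nOQ hc hx
  have hnOP' : ∀ w ∈ Ω, π w ∉ P := fun x hx => nOP' hc hx
  have hnOQ' : ∀ w ∈ Ω, π w ∉ Q := fun x hx => nOQ' hc hx
  obtain ⟨C, hC⟩ : ∃ C : V → Prop, C = Cr G P Q Ω π := ⟨_, rfl⟩
  rw [← hC] at hlam h2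
  have cO : ∀ w, C w → w ∈ Ω := fun w hw => by rw [hC] at hw; exact hw.1
  have cQ : ∀ w, C w → ∃ y ∈ Q, G.Adj (π w) y := fun w hw => by
    rw [hC] at hw
    obtain ⟨y, hy⟩ := hw.2.2
    exact ⟨y, (mem_nb.1 hy).1, (mem_nb.1 hy).2⟩
  have cP : ∀ w, C w → ∃ x ∈ P, G.Adj (π w) x := fun w hw => by
    rw [hC] at hw
    obtain ⟨x, hx⟩ := hw.2.1
    exact ⟨x, (mem_nb.1 hx).1, edgeP hc hw.1 (mem_nb.1 hx).1 (mem_nb.1 hx).2⟩
  have F1 : ∀ w, C w → ∀ w', C w' → ∀ y ∈ Q, G.Adj (π w) y → G.Adj (π w') y →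
      ∀ z ∈ Q, G.Adj (π w) z → G.Adj (π w') z := by
    intro w hw w' hw' y hy h h' z hz hzw
    rcases hlam w hw w' hw' with k | k
    · have : z ∈ nb G Q (π w) := mem_nb.2 ⟨hz, hzw⟩
      rw [k] at this
      exact (mem_nb.1 this).2
    · exact absurd (mem_nb.2 ⟨hy, h'⟩) (Finset.disjoint_left.1 k (mem_nb.2 ⟨hy, h⟩))
  have F2 : ∀ w, C w → ∀ y ∈ Q, ∀ y' ∈ Q, G.Adj y y' → G.Adj (π w) y' → G.Adj (π w) y := by
    intro w hw y hy y' hy' hyy h
    obtain ⟨x, hx, hxw⟩ := cP w hw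
    exact (x1' hg hp h5 c22 (tP x hx) (tQ y hy) (tQ y' hy') (tO' w (cO w hw)) hxw.symm hyy
      h.symm).symm
  have F3 : ∀ w, C w → ∃ w', C w' ∧ ∀ y ∈ Q, G.Adj (π w) y → ¬ G.Adj (π w') y := by
    intro w hw
    obtain ⟨w1, hw1, w2, hw2, hne⟩ := h2
    rcases hlam w hw w1 hw1 with k | k
    · rcases hlam w hw w2 hw2 with k' | k'
      · exact absurd (k.symm.trans k') hne
      · exact ⟨w2, hw2, fun y hy h h' => Finset.disjoint_left.1 k' (mem_nb.2 ⟨hy, h⟩)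
          (mem_nb.2 ⟨hy, h'⟩)⟩
    · exact ⟨w1, hw1, fun y hy h h' => Finset.disjoint_left.1 k (mem_nb.2 ⟨hy, h⟩)
        (mem_nb.2 ⟨hy, h'⟩)⟩
  have hπ : ∀ a ∈ Ω, ∀ b ∈ Ω, a ≠ b → ¬ G.Adj (π a) (π b) ∧ π a ≠ π b := fun a ha b hb hab =>
    ⟨(hOO a ha b hb hab).2.1, (hOO a ha b hb hab).2.2.2.2⟩
  have F5 : ∀ w, C w → ∀ y ∈ Q, ∀ z ∈ Q, G.Adj (π w) y → ¬ G.Adj (π w) z → ¬ G.Adj y z :=
    fun w hw y hy z hz h h' hyz => h' (F2 w hw z hz y hy hyz.symm h)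
  have F4 : ∀ w, C w → ∀ y ∈ Q, ∀ y' ∈ Q, G.Adj (π w) y → G.Adj (π w) y' → y ≠ y' →
      G.Adj y y' := by
    intro w hw y hy y' hy' h h' hne
    by_contra hn
    obtain ⟨w', hw', hd⟩ := F3 w hw
    obtain ⟨y2, hy2, k2⟩ := cQ w' hw'
    have k3 := hd y hy h
    have k4 := hd y' hy' h'
    have k5 : ¬ G.Adj (π w) y2 := fun hh => hd y2 hy2 hh k2
    have k6 := F5 w hw y hy y2 hy2 h k5
    have k7 := F5 w hw y' hy' y2 hy2 h' k5
    have hww : w ≠ w' := by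
      rintro rfl
      exact k3 h
    have k8 := (hπ w (cO w hw) w' (cO w' hw') hww).1
    clear F1 F2 F3 F5 hlam h2 cO cQ cP hπ
    gp
  have F6 : ∀ w, C w → ∀ w'', C w'' → ∀ y ∈ Q, G.Adj (π w) y → G.Adj (π w'') y → w = w'' := by
    intro w hw w'' hw'' y hy h h''
    by_contra hne
    obtain ⟨w', hw', hd⟩ := F3 w hw
    obtain ⟨y', hy', k2⟩ := cQ w' hw'
    have k1 := hd y hy h
    have k3 : ¬ G.Adj (π w) y' := fun hh => hd y' hy' hh k2
    have k4 : ¬ G.Adj (π w'') y' := fun hh => k3 (F1 w'' hw'' w hw y hy h'' h y' hy' hh)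
    have k5 := F5 w hw y hy y' hy' h k3
    have hww : w ≠ w' := by
      rintro rfl
      exact k1 h
    have hww'' : w'' ≠ w' := by
      rintro rfl
      exact k1 h''
    have k6 := hπ w (cO w hw) w' (cO w' hw') hww
    have k7 := hπ w'' (cO w'' hw'') w' (cO w' hw') hww''
    have k8 := hπ w (cO w hw) w'' (cO w'' hw'') hne
    clear F1 F2 F3 F4 F5 hlam h2 cO cQ cP hπ
    gp
  have F7a : ∀ z ∈ Ω, ∀ w, C w → ∀ w', C w' → z ≠ w → z ≠ w' → w ≠ w' → ∀ y ∈ Q, ∀ y' ∈ Q,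
      G.Adj (π w) y → G.Adj (π w') y' → G.Adj (π z) y → G.Adj (π z) y' := by
    intro z hz w hw w' hw' hzw hzw' hww y hy y' hy' h h' hzy
    by_contra hn
    have k1 : ¬ G.Adj (π w') y := fun hh => hww (F6 w hw w' hw' y hy h hh)
    have k2 : ¬ G.Adj (π w) y' := fun hh => hww (F6 w hw w' hw' y' hy' hh h')
    have k3 := F5 w hw y hy y' hy' h k2
    have k4 := hπ w (cO w hw) w' (cO w' hw') hww
    have k5 := hπ z hz w' (cO w' hw') hzw'
    have k6 := hπ z hz w (cO w hw) hzw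
    clear F1 F2 F3 F4 F5 F6 hlam h2 cO cQ cP hπ
    gp
  have F7 : ∀ z ∈ Ω, ∀ w, C w → ∀ w', C w' → z ≠ w → z ≠ w' → ∀ y ∈ Q, ∀ y' ∈ Q,
      G.Adj (π w) y → G.Adj (π w') y' → G.Adj (π z) y → G.Adj (π z) y' := by
    intro z hz w hw w' hw' hzw hzw' y hy y' hy' h h' hzy
    by_cases hww : w = w'
    · obtain ⟨w'', hw'', hd⟩ := F3 w hw
      obtain ⟨y'', hy'', k2⟩ := cQ w'' hw''
      have hne : w ≠ w'' := by
        rintro rfl
        exact hd y hy h h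
      by_cases hz'' : z = w''
      · rw [hz''] at hzy
        exact absurd hzy (hd y hy h)
      · have k3 := F7a z hz w hw w'' hw'' hzw hz'' hne y hy y'' hy'' h k2 hzy
        exact F7a z hz w'' hw'' w' hw' hz'' hzw' (hww ▸ hne.symm) y'' hy'' y' hy' k2 h' k3
    · exact F7a z hz w hw w' hw' hzw hzw' hww y hy y' hy' h h' hzy
  -- the attached vertices
  obtain ⟨YY, hYY⟩ : ∃ S, S = Q.filter (fun y => ∃ w, C w ∧ G.Adj (π w) y) := ⟨_, rfl⟩
  have sYY : ∀ y ∈ YY, y ∈ Q := by rw [hYY]; exact fun z hz => (Finset.mem_filter.1 hz).1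
  have hex : ∀ y, y ∈ YY → ∃ w, C w ∧ G.Adj (π w) y := by
    intro y hy
    rw [hYY, Finset.mem_filter] at hy
    exact hy.2
  choose! cw hcw using hex
  obtain ⟨b, hb⟩ : ∃ b : V → V, ∀ z, b z = if z ∈ YY then π (cw z) else z := ⟨_, fun _ => rfl⟩
  have hbY : ∀ z ∈ YY, b z = π (cw z) := fun z hz => by rw [hb, if_pos hz]
  have hbn : ∀ z, z ∉ YY → b z = z := fun z hz => by rw [hb, if_neg hz]
  have hcore : BD G KN (P ∪ (Q \ YY) ∪ Ω ∪ Ω.image π) := by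
    apply hN V G hg hp h5 v0 v1 v2 v3
    · exact cfg_mono hc (Finset.Subset.refl _) Finset.sdiff_subset (Finset.Subset.refl _)
    · intro w hw
      by_cases h : nb G P w = ∅
      · exact Or.inl h
      · right
        rw [nb_empty]
        intro y hy hadj
        rw [Finset.mem_sdiff] at hy
        apply hy.2
        rw [hYY, Finset.mem_filter]
        refine ⟨hy.1, w, ?_, hadj⟩
        rw [hC]
        exact ⟨hw, Finset.nonempty_iff_ne_empty.2 h, ⟨y, mem_nb.2 ⟨hy.1, hadj⟩⟩⟩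
  have hdis : ∀ z ∈ P ∪ (Q \ YY) ∪ Ω ∪ Ω.image π, z ∉ YY := by
    intro z hz hzY
    simp only [Finset.mem_union, Finset.mem_sdiff] at hz
    rcases hz with ((h | h) | h) | h
    · exact hnPQ z h (sYY z hzY)
    · exact h.2 hzY
    · exact hnOQ z h (sYY z hzY)
    · obtain ⟨w, hw, rfl⟩ := Finset.mem_image.1 h
      exact hnOQ' w hw (sYY _ hzY)
  obtain ⟨HH, hHH⟩ : ∃ HH : V → Prop, ∀ u, HH u ↔ ∃ z ∈ Ω, u = π z ∧ ∃ w, C w ∧ z ≠ w ∧
    ∃ y ∈ Q, G.Adj (π w) y ∧ G.Adj (π z) y := ⟨_, fun _ => Iff.rfl⟩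
  have hatt := hA V G Lb V KN 1 (P ∪ (Q \ YY) ∪ Ω ∪ Ω.image π) YY
    (fun z => (z ∈ P, HH z, (z ∈ Ω ∧ π z ≠ z), False))
    (fun l l' => l'.1 ∨ l'.2.1 ∨ l'.2.2.1) b hcore ?_ ?_ ?_
  · refine hatt.sub ?_
    intro z hz
    simp only [Finset.mem_union, Finset.mem_sdiff] at hz ⊢
    by_cases k : z ∈ YY
    · exact Or.inr k
    · rcases hz with ((h | h) | h) | h
      · exact Or.inl (Or.inl (Or.inl (Or.inl h)))
      · exact Or.inl (Or.inl (Or.inl (Or.inr ⟨h, k⟩)))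
      · exact Or.inl (Or.inl (Or.inr h))
      · exact Or.inl (Or.inr h)
  · intro x hx y hy hxy
    rw [hbn x (hdis x hx), hbn y (hdis y hy)] at hxy
    exact hxy
  · intro x hx
    apply BD.clq
    intro y hy z hz hyz
    rw [Finset.mem_filter] at hy hz
    have hbb : b y = b z := hy.2.trans hz.2.symm
    by_cases k1 : y ∈ YY <;> by_cases k2 : z ∈ YY
    · rw [hbY y k1, hbY z k2] at hbb
      have m1 := hcw y k1
      have m2 := hcw z k2
      have m3 := pi_inj hc (cO _ m1.1) (cO _ m2.1) hbb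
      rw [← m3] at m2
      exact F4 _ m1.1 y (sYY y k1) z (sYY z k2) m1.2 m2.2 hyz
    · rw [hbY y k1, hbn z k2] at hbb
      rw [← hbb]
      exact (hcw y k1).2.symm
    · rw [hbn y k1, hbY z k2] at hbb
      rw [hbb]
      exact (hcw z k2).2
    · rw [hbn y k1, hbn z k2] at hbb
      exact absurd hbb hyz
  · intro x hx y hy hxy
    show G.Adj x y ↔ y ∈ P ∨ HH y ∨ (y ∈ Ω ∧ π y ≠ y)
    obtain ⟨m1, m2⟩ := hcw x hx
    have hxQ := sYY x hx
    rw [hbY x hx] at hxy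
    have hcase : y ∈ P ∨ y ∈ Q ∨ (y ∈ Ω ∧ π y ≠ y) ∨ ∃ z ∈ Ω, y = π z := by
      simp only [Finset.mem_union, Finset.mem_sdiff] at hy
      rcases hy with (((h | h) | h) | h) | h
      · exact Or.inl h
      · exact Or.inr (Or.inl h.1)
      · by_cases k : π y = y
        · exact Or.inr (Or.inr (Or.inr ⟨y, h, k.symm⟩))
        · exact Or.inr (Or.inr (Or.inl ⟨h, k⟩))
      · obtain ⟨z, hz, rfl⟩ := Finset.mem_image.1 h
        exact Or.inr (Or.inr (Or.inr ⟨z, hz, rfl⟩))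
      · exact Or.inr (Or.inl (sYY y h))
    rcases hcase with h | h | h | ⟨z, hz, rfl⟩
    · refine ⟨fun _ => Or.inl h, fun _ => ?_⟩
      by_contra hn
      exact (x0 hp h5 c22 (tP y h) (tQ x hxQ) (fun h' => hn h'.symm) (tO' _ (cO _ m1))).2 m2.symm
    · constructor
      · intro hadj
        exfalso
        have k : G.Adj (π (cw x)) y := F2 _ m1 y h x hxQ hadj.symm m2
        have hyY : y ∈ YY := by
          rw [hYY, Finset.mem_filter]
          exact ⟨h, _, m1, k⟩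
        have n := hcw y hyY
        have := F6 _ m1 _ n.1 y h k n.2
        apply hxy
        rw [hbY y hyY, this]
      · rintro (h' | h' | h')
        · exact absurd h (hnPQ y h')
        · rw [hHH] at h'
          obtain ⟨z, hz, rfl, -⟩ := h'
          exact absurd h (hnOQ' z hz)
        · exact absurd h (hnOQ y h'.1)
    · exact ⟨fun _ => Or.inr (Or.inr h), fun _ =>
        (((hE y h.1).resolve_left h.2).2.2 x hxQ).symm⟩
    · have hzY : π z ∉ YY := fun h' => hnOQ' z hz (sYY _ h')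
      rw [hbn _ hzY] at hxy
      have hzw : z ≠ cw x := fun h' => hxy (by rw [h'])
      constructor
      · intro hadj
        right; left
        rw [hHH]
        exact ⟨z, hz, rfl, cw x, m1, hzw, x, hxQ, m2, hadj.symm⟩
      · rintro (h' | h' | h')
        · exact absurd h' (hnOP' z hz)
        · rw [hHH] at h'
          obtain ⟨z', hz', hzz, w', hw', hne, y', hy', k1, k2⟩ := h'
          have : z' = z := (pi_inj hc hz hz' hzz).symm
          subst this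
          exact (F7 z' hz w' hw' (cw x) m1 hne hzw y' hy' x hxQ k1 m2 k2).symm
        · have := pi_mem hc hz h'.1
          rw [this] at h'
          exact absurd this h'.2

/-! ### one trace -/

theorem oneTrace (hA : AttachStmt) (hT : TwoStmt) (hZ : ZStmt) :
    ∃ K : ℕ, ∀ (V : Type) (G : SimpleGraph V), NoGem G → NoP23 G → NoC5 G →
      ∀ (v0 v1 v2 v3 : V) (P Q Ω : Finset V) (π : V → V), CPCfg G v0 v1 v2 v3 P Q Ω π →
      (∀ x, Cr G P Q Ω π x → ∀ y, Cr G P Q Ω π y → nb G Q (π x) = nb G Q (π y) ∧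
        nb G P x = nb G P y) →
      BD G K (P ∪ Q ∪ Ω ∪ Ω.image π) := by
  obtain ⟨KN, hN⟩ := noCross hA hT hZ
  obtain ⟨BT, hT⟩ := hT
  refine ⟨BT KN 1 (Fintype.card (Prop × Lb)), ?_⟩
  intro V G hg hp h5 v0 v1 v2 v3 P Q Ω π hc hone
  have hc' := hc
  obtain ⟨c22, hP, hQ, hO, hO', hOO, hE⟩ := hc'
  have hnPQ : ∀ x ∈ P, x ∉ Q := fun x hx => nPQ hc hx
  have hnOP : ∀ w ∈ Ω, w ∉ P := fun x hx => nOP hc hx
  have hnOQ : ∀ w ∈ Ω, w ∉ Q := fun x hx => nOQ hc hx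
  have hnOP' : ∀ w ∈ Ω, π w ∉ P := fun x hx => nOP' hc hx
  have hnOQ' : ∀ w ∈ Ω, π w ∉ Q := fun x hx => nOQ' hc hx
  obtain ⟨Ωc, hΩc⟩ : ∃ S, S = Ω.filter (fun w => Cr G P Q Ω π w) := ⟨_, rfl⟩
  obtain ⟨Ωn, hΩn⟩ : ∃ S, S = Ω.filter (fun w => ¬ Cr G P Q Ω π w) := ⟨_, rfl⟩
  have sc : ∀ w ∈ Ωc, w ∈ Ω := by rw [hΩc]; exact fun z hz => (Finset.mem_filter.1 hz).1
  have sn : ∀ w ∈ Ωn, w ∈ Ω := by rw [hΩn]; exact fun z hz => (Finset.mem_filter.1 hz).1
  have scn : ∀ w ∈ Ωc, w ∉ Ωn := by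
    intro w h h'
    rw [hΩc, Finset.mem_filter] at h
    rw [hΩn, Finset.mem_filter] at h'
    exact h'.2 h.2
  have ccr : ∀ w ∈ Ωc, Cr G P Q Ω π w := by
    rw [hΩc]; exact fun z hz => (Finset.mem_filter.1 hz).2
  have hcore : BD G KN (P ∪ Q ∪ Ωn ∪ Ωn.image π) := by
    apply hN V G hg hp h5 v0 v1 v2 v3
    · exact cfg_mono hc (Finset.Subset.refl _) (Finset.Subset.refl _) (fun w hw => sn w hw)
    · intro w hw
      rw [hΩn, Finset.mem_filter] at hw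
      by_contra hcon
      rw [not_or] at hcon
      exact hw.2 ⟨hw.1, Finset.nonempty_iff_ne_empty.2 hcon.1,
        Finset.nonempty_iff_ne_empty.2 hcon.2⟩
  have hsubc : ∀ z ∈ Ωc ∪ Ωc.image π, z ∈ Ω ∪ Ω.image π := by
    intro z hz
    rcases Finset.mem_union.1 hz with h | h
    · exact Finset.mem_union_left _ (sc z h)
    · exact Finset.mem_union_right _ (Finset.image_subset_image (fun w hw => sc w hw) h)
  have hinvc : ∀ z ∈ Ωc ∪ Ωc.image π, inv Ω π z ∈ Ωc := by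
    intro z hz
    rcases Finset.mem_union.1 hz with h | h
    · rw [inv_self hc (sc z h)]; exact h
    · obtain ⟨w, hw, rfl⟩ := Finset.mem_image.1 h
      rw [inv_pi hc (sc w hw)]; exact hw
  have hinvn : ∀ z ∈ Ωn ∪ Ωn.image π, inv Ω π z ∈ Ωn := by
    intro z hz
    rcases Finset.mem_union.1 hz with h | h
    · rw [inv_self hc (sn z h)]; exact h
    · obtain ⟨w, hw, rfl⟩ := Finset.mem_image.1 h
      rw [inv_pi hc (sn w hw)]; exact hw
  have hcoord : ∀ z ∈ Ω ∪ Ω.image π, z ∉ P ∧ z ∉ Q := by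
    intro z hz
    rcases Finset.mem_union.1 hz with h | h
    · exact ⟨hnOP z h, hnOQ z h⟩
    · obtain ⟨w, hw, rfl⟩ := Finset.mem_image.1 h
      exact ⟨hnOP' w hw, hnOQ' w hw⟩
  have hsubn : ∀ z ∈ Ωn ∪ Ωn.image π, z ∈ Ω ∪ Ω.image π := by
    intro z hz
    rcases Finset.mem_union.1 hz with h | h
    · exact Finset.mem_union_left _ (sn z h)
    · exact Finset.mem_union_right _ (Finset.image_subset_image (fun w hw => sn w hw) h)
  have hcoords : BD G 1 (Ωc ∪ Ωc.image π) := by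
    apply BD.cograph
    apply p4free_of_clus
    intro x hx y hy z hz hxy hyz hne
    have k1 : inv Ω π x = inv Ω π y := by
      by_contra h
      exact inv_ne hc (hsubc x hx) (hsubc y hy) h hxy
    have k2 : inv Ω π y = inv Ω π z := by
      by_contra h
      exact inv_ne hc (hsubc y hy) (hsubc z hz) h hyz
    have hin : ∀ z ∈ Ωc ∪ Ωc.image π, z ∈ P ∪ Q ∪ Ω ∪ Ω.image π := by
      intro z hz
      have := hsubc z hz
      rw [Finset.union_assoc (P ∪ Q)]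
      exact Finset.mem_union_right _ this
    exact inv_eq hc (hin x hx) (hin z hz) (k1.trans k2) hne
  obtain ⟨XX, hXX⟩ : ∃ XX : V → Prop, ∀ x, XX x ↔ x ∈ P ∧ ∃ w ∈ Ωc, G.Adj w x :=
    ⟨_, fun _ => Iff.rfl⟩
  obtain ⟨YY, hYY⟩ : ∃ YY : V → Prop, ∀ y, YY y ↔ y ∈ Q ∧ ∃ w ∈ Ωc, G.Adj (π w) y :=
    ⟨_, fun _ => Iff.rfl⟩
  have hX : ∀ w ∈ Ωc, ∀ x ∈ P, G.Adj x w ↔ XX x := by
    intro w hw x hx
    rw [hXX]
    constructor
    · exact fun h => ⟨hx, w, hw, h.symm⟩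
    · rintro ⟨-, w', hw', h⟩
      have : x ∈ nb G P w' := mem_nb.2 ⟨hx, h⟩
      rw [(hone w' (ccr w' hw') w (ccr w hw)).2] at this
      exact (mem_nb.1 this).2.symm
  have hY : ∀ w ∈ Ωc, ∀ y ∈ Q, G.Adj y (π w) ↔ YY y := by
    intro w hw y hy
    rw [hYY]
    constructor
    · exact fun h => ⟨hy, w, hw, h.symm⟩
    · rintro ⟨-, w', hw', h⟩
      have : y ∈ nb G Q (π w') := mem_nb.2 ⟨hy, h⟩
      rw [(hone w' (ccr w' hw') w (ccr w hw)).1] at this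
      exact (mem_nb.1 this).2.symm
  have h := hT V G (Prop × Lb) KN 1 (P ∪ Q ∪ Ωn ∪ Ωn.image π) (Ωc ∪ Ωc.image π)
    (fun z => ((XX z ∨ YY z), z ∈ P, z ∈ Q, (z ∈ Ω ∧ π z ≠ z), (∃ w ∈ Ω, π w ≠ w ∧ z = π w)))
    (fun l l' => l.1 ∨ (l.2.1 ∧ l'.2.2.2.2) ∨ (l.2.2.1 ∧ l'.2.2.2.1)) ?_ hcore hcoords ?_
  · refine h.sub ?_
    intro z hz
    simp only [Finset.mem_union] at hz ⊢
    rcases hz with ((h | h) | h) | h
    · exact Or.inl (Or.inl (Or.inl (Or.inl h)))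
    · exact Or.inl (Or.inl (Or.inl (Or.inr h)))
    · by_cases k : z ∈ Ωc
      · exact Or.inr (Or.inl k)
      · refine Or.inl (Or.inl (Or.inr ?_))
        rw [hΩn, Finset.mem_filter]
        refine ⟨h, fun h' => k ?_⟩
        rw [hΩc, Finset.mem_filter]
        exact ⟨h, h'⟩
    · obtain ⟨w, hw, rfl⟩ := Finset.mem_image.1 h
      by_cases k : w ∈ Ωc
      · exact Or.inr (Or.inr (Finset.mem_image_of_mem _ k))
      · refine Or.inl (Or.inr (Finset.mem_image_of_mem _ ?_))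
        rw [hΩn, Finset.mem_filter]
        refine ⟨hw, fun h' => k ?_⟩
        rw [hΩc, Finset.mem_filter]
        exact ⟨hw, h'⟩
  · rw [Finset.disjoint_left]
    intro x hx hx'
    have k1 := hcoord x (hsubc x hx')
    rw [Finset.union_assoc, Finset.mem_union, Finset.mem_union] at hx
    rcases hx with (h | h) | h
    · exact k1.1 h
    · exact k1.2 h
    · exact scn _ (hinvc x hx') (hinvn x h)
  · intro x hx y hy
    show G.Adj x y ↔ (XX x ∨ YY x) ∨ (x ∈ P ∧ ∃ w ∈ Ω, π w ≠ w ∧ y = π w) ∨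
      (x ∈ Q ∧ (y ∈ Ω ∧ π y ≠ y))
    have hXn : x ∉ P → ¬ XX x := fun h h' => h ((hXX x).1 h').1
    have hYn : x ∉ Q → ¬ YY x := fun h h' => h ((hYY x).1 h').1
    rw [Finset.union_assoc, Finset.mem_union, Finset.mem_union] at hx
    -- `y` is an edge end or `y ∈ Ωc`
    have hys : (y ∈ Ωc ∧ ¬ ∃ w ∈ Ω, π w ≠ w ∧ y = π w) ∨
        (∃ w ∈ Ωc, π w ≠ w ∧ y = π w ∧ y ∉ Ω) := by
      have key : y ∈ Ω → ¬ ∃ w ∈ Ω, π w ≠ w ∧ y = π w := by
        rintro h ⟨w, hw, h1, h2⟩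
        rw [h2] at h
        exact h1 (pi_mem hc hw h)
      rcases Finset.mem_union.1 hy with h | h
      · exact Or.inl ⟨h, key (sc y h)⟩
      · obtain ⟨w, hw, rfl⟩ := Finset.mem_image.1 h
        by_cases k : π w = w
        · rw [k] at key ⊢
          exact Or.inl ⟨hw, key (sc w hw)⟩
        · exact Or.inr ⟨w, hw, k, rfl, fun h' => k (pi_mem hc (sc w hw) h')⟩
    rcases hx with (hx | hx) | hx
    · have hxQ := hnPQ x hx
      have := hYn hxQ
      rcases hys with ⟨h1, h2⟩ | ⟨w, hw, h1, h2, h3⟩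
      · have h3 := hX y h1 x hx
        constructor
        · exact fun h => Or.inl (Or.inl (h3.1 h))
        · rintro ((h | h) | h | h)
          · exact h3.2 h
          · exact absurd h this
          · exact absurd h.2 h2
          · exact absurd h.1 hxQ
      · have hl : G.Adj x y := by
          rw [h2]
          exact (((hE w (sc w hw)).resolve_left h1).2.1 x hx).symm
        exact ⟨fun _ => Or.inr (Or.inl ⟨hx, w, sc w hw, h1, h2⟩), fun _ => hl⟩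
    · have hxP : x ∉ P := fun h => hnPQ x h hx
      have := hXn hxP
      rcases hys with ⟨h1, h2⟩ | ⟨w, hw, h1, h2, h3⟩
      · by_cases k : π y = y
        · have h4 := hY y h1 x hx
          rw [k] at h4
          tauto
        · have hl : G.Adj x y := (((hE y (sc y h1)).resolve_left k).2.2 x hx).symm
          have := sc y h1
          tauto
      · have h4 := hY w hw x hx
        rw [← h2] at h4
        tauto
    · have hxc := hcoord x (hsubn x hx)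
      have hl : ¬ G.Adj x y := by
        apply inv_ne hc (hsubn x hx) (hsubc y hy)
        intro h
        exact scn _ (hinvc y hy) (h ▸ hinvn x hx)
      have := hXn hxc.1
      have := hYn hxc.2
      tauto

/-! ### assembly -/

theorem x2 {v0 v1 v2 v3 : V} {P Q Ω : Finset V} {π : V → V} (hg : NoGem G) (hp : NoP23 G)
    (h5 : NoC5 G) (hc : CPCfg G v0 v1 v2 v3 P Q Ω π) {w w' x x' y : V} (hw : w ∈ Ω)
    (hw' : w' ∈ Ω) (hy : y ∈ Q) (hx : x ∈ P) (hx' : x' ∈ P) (h1 : G.Adj (π w) y)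
    (h2 : G.Adj (π w') y) (h3 : G.Adj w x) (h4 : G.Adj w' x) (h6 : G.Adj w x') :
    G.Adj w' x' := by
  by_contra hn
  have hc' := hc
  obtain ⟨c22, hP, hQ, hO, hO', hOO, hE⟩ := hc'
  have k1 := edgeQ hc hw hy h1
  have k2 := edgeQ hc hw' hy h2
  have hne : w ≠ w' := by
    rintro rfl
    exact hn h6
  have k3 := (hOO w hw w' hw' hne).1
  have k4 : ¬ G.Adj x x' := fun h => hn (x1 hg hp h5 c22 (hP x' hx') (hP x hx) (hQ y hy)
    (hO w' hw') k2.symm h.symm h4.symm).symm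
  have k5 : G.Adj x y := by
    by_contra h
    exact (x0 hp h5 c22 (hP x hx) (hQ y hy) h (hO w hw)).1 h3.symm
  have k6 : G.Adj x' y := by
    by_contra h
    exact (x0 hp h5 c22 (hP x' hx') (hQ y hy) h (hO w hw)).1 h6.symm
  clear hP hQ hO hO' hOO hE hc
  gp

theorem oneSide (hA : AttachStmt) (hT : TwoStmt) (hZ : ZStmt) :
    ∃ K : ℕ, ∀ (V : Type) (G : SimpleGraph V), NoGem G → NoP23 G → NoC5 G →
      ∀ (v0 v1 v2 v3 : V) (P Q Ω : Finset V) (π : V → V), CPCfg G v0 v1 v2 v3 P Q Ω π →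
      (∀ x, Cr G P Q Ω π x → ∀ y, Cr G P Q Ω π y → nb G Q (π x) = nb G Q (π y) ∨
        Disjoint (nb G Q (π x)) (nb G Q (π y))) →
      BD G K (P ∪ Q ∪ Ω ∪ Ω.image π) := by
  obtain ⟨K1, h1⟩ := manyTraces hA hT hZ
  obtain ⟨K2, h2⟩ := oneTrace hA hT hZ
  refine ⟨max K1 K2, ?_⟩
  intro V G hg hp h5 v0 v1 v2 v3 P Q Ω π hc hlam
  by_cases hm : ∃ w1, Cr G P Q Ω π w1 ∧ ∃ w2, Cr G P Q Ω π w2 ∧ nb G Q (π w1) ≠ nb G Q (π w2)
  · exact (h1 V G hg hp h5 v0 v1 v2 v3 P Q Ω π hc hlam hm).mono (le_max_left _ _)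
  · push Not at hm
    have hlamP : ∀ x, Cr G P Q Ω π x → ∀ y, Cr G P Q Ω π y → nb G P x = nb G P y ∨
        Disjoint (nb G P x) (nb G P y) := by
      intro w hw w' hw'
      by_cases hd : Disjoint (nb G P w) (nb G P w')
      · exact Or.inr hd
      · left
        rw [Finset.not_disjoint_iff] at hd
        obtain ⟨x, hx1, hx2⟩ := hd
        rw [mem_nb] at hx1 hx2
        obtain ⟨y, hy⟩ := hw.2.2
        have hy' : y ∈ nb G Q (π w') := by rw [← hm w hw w' hw']; exact hy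
        rw [mem_nb] at hy hy'
        ext x'
        rw [mem_nb, mem_nb]
        constructor
        · rintro ⟨k1, k2⟩
          exact ⟨k1, x2 hg hp h5 hc hw.1 hw'.1 hy.1 hx1.1 k1 hy.2 hy'.2 hx1.2 hx2.2 k2⟩
        · rintro ⟨k1, k2⟩
          exact ⟨k1, x2 hg hp h5 hc hw'.1 hw.1 hy.1 hx1.1 k1 hy'.2 hy.2 hx2.2 hx1.2 k2⟩
    by_cases hm2 : ∃ w1, Cr G P Q Ω π w1 ∧ ∃ w2, Cr G P Q Ω π w2 ∧ nb G P w1 ≠ nb G P w2
    · have hsw := cfg_swap hc
      have hcr : ∀ x, Cr G Q P (Ω.image π) (inv Ω π) x → Cr G P Q Ω π (inv Ω π x) := by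
        rintro x ⟨k1, k2, k3⟩
        obtain ⟨w, hw, rfl⟩ := Finset.mem_image.1 k1
        rw [inv_pi hc hw] at k3 ⊢
        exact ⟨hw, k3, k2⟩
      have hcr' : ∀ w, Cr G P Q Ω π w → Cr G Q P (Ω.image π) (inv Ω π) (π w) := by
        rintro w ⟨k1, k2, k3⟩
        refine ⟨Finset.mem_image_of_mem _ k1, k3, ?_⟩
        rw [inv_pi hc k1]
        exact k2
      have h := h1 V G hg hp h5 v1 v0 v3 v2 Q P (Ω.image π) (inv Ω π) hsw
        (fun x hx y hy => hlamP _ (hcr x hx) _ (hcr y hy)) ?_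
      · refine (h.mono (le_max_left _ _)).sub ?_
        rw [swap_image hc]
        intro z hz
        simp only [Finset.mem_union] at hz ⊢
        tauto
      · obtain ⟨w1, k1, w2, k2, k3⟩ := hm2
        refine ⟨π w1, hcr' w1 k1, π w2, hcr' w2 k2, ?_⟩
        rw [inv_pi hc k1.1, inv_pi hc k2.1]
        exact k3
    · push Not at hm2
      exact (h2 V G hg hp h5 v0 v1 v2 v3 P Q Ω π hc
        (fun x hx y hy => ⟨hm x hx y hy, hm2 x hx y hy⟩)).mono (le_max_right _ _)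

end Pool.Agent.H175G.CPx

namespace Pool.Agent.H175G

open Finset Classical CPx

theorem cp_stmt (hA : AttachStmt) (hT : TwoStmt) (hZ : ZStmt) (hLam : CPLamStmt) : CPStmt := by
  obtain ⟨K, h⟩ := oneSide hA hT hZ
  refine ⟨K, ?_⟩
  intro V G hg hp h5 v0 v1 v2 v3 P Q Ω π hc hPn hQn
  rcases hLam V G hg hp h5 v0 v1 v2 v3 P Q Ω π hc hPn hQn with hl | hl
  · exact h V G hg hp h5 v0 v1 v2 v3 P Q Ω π hc
      (fun x hx y hy => hl x hx.1 y hy.1 hx.2.1 hx.2.2 hy.2.1 hy.2.2)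
  · have hsw := cfg_swap hc
    have hcr : ∀ x, Cr G Q P (Ω.image π) (inv Ω π) x → Cr G P Q Ω π (inv Ω π x) := by
      rintro x ⟨k1, k2, k3⟩
      obtain ⟨w, hw, rfl⟩ := Finset.mem_image.1 k1
      rw [inv_pi hc hw] at k3 ⊢
      exact ⟨hw, k3, k2⟩
    have h' := h V G hg hp h5 v1 v0 v3 v2 Q P (Ω.image π) (inv Ω π) hsw
      (fun x hx y hy => hl _ (hcr x hx).1 _ (hcr y hy).1 (hcr x hx).2.1 (hcr x hx).2.2
        (hcr y hy).2.1 (hcr y hy).2.2)
    refine h'.sub ?_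
    rw [swap_image hc]
    intro z hz
    simp only [Finset.mem_union] at hz ⊢
    tauto

end Pool.Agent.H175G
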